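import Pool.Agent.Helper66.MF.Core

namespace Helper66.MF

open Finset

open Classical in
private lemma Block_nonres_le (q : ℕ) (S : Finset ℕ) : #(nonres q S) ≤ #S :=
  card_filter_le _ _

open Classical in
private lemma Block_swap (J : ℕ) (B : Finset ℕ) (S : ℕ → Finset ℕ) :
    ∑ q ∈ B, ∑ i ∈ range J, #(nonres q (S i)) = ∑ i ∈ range J, ∑ p ∈ S i, #(nonmod p B) := by
  rw [sum_comm]
  refine sum_congr rfl fun i _ => ?_
  simp only [nonres, nonmod, card_filter]
  rw [sum_comm]

/-- One block of moduli.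

Suppose `¬ Rep3 a b`. Let `X = ∑ i, ∑ q, 1 / cnt q (S i)` and count
`N = #{(q, i, p) : q ∈ B, i < J, p ∈ S i, p not a square modulo q}`.
Upper bound: `N ≤ g * #{(q, i) : cnt q (S i) < T} + g * ∑ q ∈ B, #{i | T ≤ cnt q (S i) ∧
(nonres q (S i)).Nonempty}`. The first set has at most `T * X ≤ J #B / 32` elements, and for every
`q` the second has at most `16 q / T ≤ 32 Q / T ≤ J / 32` elements (`one_modulus`), so
`N ≤ g J #B / 16`. Lower bound: every `S i` has at least `g / 2` elements outside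
`exc B (S i)`, each a non-square for more than `#B / 4` of the `q`, so `N > g J #B / 8`
(or `≥`, which is enough as `g J #B > 0`). -/
theorem block {a b n Q J g T : ℕ} (hb : 0 < b) (hJ : 0 < J) (hg : 0 < g) (S : ℕ → Finset ℕ)
    (B : Finset ℕ) (hS : ∀ i < J, #(S i) = g ∧ ∀ p ∈ S i, p.Prime ∧ p ≤ n)
    (hSb : ∏ i ∈ range J, ∏ p ∈ S i, p ∣ b)
    (hB : ∀ q ∈ B, q.Prime ∧ a ∣ q + 1 ∧ Q < q ∧ q ≤ 2 * Q) (hB0 : B.Nonempty) (hn : n ≤ Q)
    (hT : 1024 * Q ≤ J * T)
    (hX : 32 * T * (∑ i ∈ range J, ∑ q ∈ B, (1 : ℝ) / cnt q (S i)) ≤ J * #B)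
    (hE : ∀ i < J, 2 * #(exc B (S i)) ≤ g) : Rep3 a b := by
  by_contra hR
  have hQ : 0 < Q := by
    obtain ⟨q, hq⟩ := hB0
    obtain ⟨-, -, h1, h2⟩ := hB q hq
    omega
  have hT0 : 0 < T := by
    rcases Nat.eq_zero_or_pos T with h | h
    · subst h; omega
    · exact h
  have hB1 : 0 < #B := card_pos.2 hB0
  -- the second count
  have h2 : ∀ q ∈ B, 32 * #{i ∈ range J | T ≤ cnt q (S i) ∧ (nonres q (S i)).Nonempty} ≤ J := by
    intro q hq
    obtain ⟨hqp, haq, hq1, hq2⟩ := hB q hq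
    have h := one_modulus (T := T) hqp hb haq S (fun i hi p hp h0 => by
      obtain ⟨hpp, hpn⟩ := (hS i hi).2 p hp
      have hdvd := (ZMod.natCast_eq_zero_iff p q).1 h0
      have := Nat.le_of_dvd hpp.pos hdvd
      omega) hSb hR
    have h3 : T * (32 * #{i ∈ range J | T ≤ cnt q (S i) ∧ (nonres q (S i)).Nonempty}) ≤ T * J := by
      calc _ = 32 * (T * #{i ∈ range J | T ≤ cnt q (S i) ∧ (nonres q (S i)).Nonempty}) := by ring
        _ ≤ 32 * (16 * q) := Nat.mul_le_mul_left _ h
        _ ≤ 1024 * Q := by omega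
        _ ≤ J * T := hT
        _ = T * J := Nat.mul_comm _ _
    exact Nat.le_of_mul_le_mul_left h3 hT0
  -- the first count
  have cpos : ∀ q i, 0 < cnt q (S i) := by
    intro q i
    exact card_pos.2 ((powerset_nonempty _).image _)
  have h1 : 32 * ∑ i ∈ range J, #{q ∈ B | cnt q (S i) < T} ≤ J * #B := by
    have e1 : ((∑ i ∈ range J, #{q ∈ B | cnt q (S i) < T} : ℕ) : ℝ) ≤
        T * ∑ i ∈ range J, ∑ q ∈ B, (1 : ℝ) / cnt q (S i) := by
      push_cast
      rw [mul_sum]
      refine sum_le_sum fun i _ => ?_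
      rw [card_filter, mul_sum]
      push_cast
      refine sum_le_sum fun q _ => ?_
      have hc : (0 : ℝ) < cnt q (S i) := by exact_mod_cast cpos q i
      split_ifs with h
      · have h' : ((cnt q (S i) : ℕ) : ℝ) ≤ T := by exact_mod_cast h.le
        rw [mul_one_div, le_div_iff₀ hc, one_mul]
        exact h'
      · positivity
    have e2 : ((32 * ∑ i ∈ range J, #{q ∈ B | cnt q (S i) < T} : ℕ) : ℝ) ≤
        ((J * #B : ℕ) : ℝ) := by
      rw [Nat.cast_mul, Nat.cast_mul]
      refine le_trans ?_ hX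
      rw [mul_assoc]
      exact mul_le_mul_of_nonneg_left e1 (by norm_num)
    exact_mod_cast e2
  -- upper bound
  have hup : 32 * ∑ q ∈ B, ∑ i ∈ range J, #(nonres q (S i)) ≤ g * (2 * (J * #B)) := by
    have e3 : ∑ q ∈ B, ∑ i ∈ range J, #(nonres q (S i)) ≤
        ∑ q ∈ B, ∑ i ∈ range J, g * ((if cnt q (S i) < T then 1 else 0) +
          (if T ≤ cnt q (S i) ∧ (nonres q (S i)).Nonempty then 1 else 0)) := by
      refine sum_le_sum fun q _ => sum_le_sum fun i hi => ?_
      have hle : #(nonres q (S i)) ≤ g := by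
        rw [← (hS i (mem_range.1 hi)).1]
        exact Block_nonres_le _ _
      by_cases hc : cnt q (S i) < T
      · rw [if_pos hc]
        calc _ ≤ g * 1 := by omega
          _ ≤ _ := Nat.mul_le_mul_left _ (Nat.le_add_right _ _)
      · rw [if_neg hc]
        by_cases hne : (nonres q (S i)).Nonempty
        · rw [if_pos ⟨not_lt.1 hc, hne⟩]; omega
        · rw [not_nonempty_iff_eq_empty.1 hne, card_empty]; exact Nat.zero_le _
    have e4 : ∑ q ∈ B, ∑ i ∈ range J, g * ((if cnt q (S i) < T then 1 else 0) +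
          (if T ≤ cnt q (S i) ∧ (nonres q (S i)).Nonempty then 1 else 0)) =
        g * (∑ i ∈ range J, #{q ∈ B | cnt q (S i) < T} +
          ∑ q ∈ B, #{i ∈ range J | T ≤ cnt q (S i) ∧ (nonres q (S i)).Nonempty}) := by
      simp only [card_filter]
      rw [sum_comm (s := range J), ← sum_add_distrib, mul_sum]
      refine sum_congr rfl fun q _ => ?_
      rw [← sum_add_distrib, mul_sum]
    have e5 : 32 * ∑ q ∈ B, #{i ∈ range J | T ≤ cnt q (S i) ∧ (nonres q (S i)).Nonempty} ≤
        J * #B := by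
      rw [mul_sum]
      calc _ ≤ ∑ _q ∈ B, J := sum_le_sum fun q hq => h2 q hq
        _ = J * #B := by rw [sum_const, smul_eq_mul, Nat.mul_comm]
    calc _ ≤ 32 * (g * (∑ i ∈ range J, #{q ∈ B | cnt q (S i) < T} +
          ∑ q ∈ B, #{i ∈ range J | T ≤ cnt q (S i) ∧ (nonres q (S i)).Nonempty})) :=
          Nat.mul_le_mul_left _ (e3.trans e4.le)
      _ = g * (32 * ∑ i ∈ range J, #{q ∈ B | cnt q (S i) < T} +
          32 * ∑ q ∈ B, #{i ∈ range J | T ≤ cnt q (S i) ∧ (nonres q (S i)).Nonempty}) := by ring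
      _ ≤ g * (2 * (J * #B)) := Nat.mul_le_mul_left _ (by omega)
  -- lower bound
  have hlow : g * (J * #B) ≤ 8 * ∑ q ∈ B, ∑ i ∈ range J, #(nonres q (S i)) := by
    rw [Block_swap, mul_sum]
    have e6 : ∀ i ∈ range J, g * #B ≤ 8 * ∑ p ∈ S i, #(nonmod p B) := by
      intro i hi
      have hi' := mem_range.1 hi
      have e7 : #(S i) ≤ #(exc B (S i)) + #(S i \ exc B (S i)) := by
        have := card_sdiff_add_card (S i) (exc B (S i))
        have h3 : #(S i) ≤ #(S i ∪ exc B (S i)) := card_le_card subset_union_left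
        omega
      have e8 : #(S i \ exc B (S i)) * #B ≤ 4 * ∑ p ∈ S i, #(nonmod p B) := by
        calc _ = ∑ _p ∈ S i \ exc B (S i), #B := by rw [sum_const, smul_eq_mul]
          _ ≤ ∑ p ∈ S i \ exc B (S i), 4 * #(nonmod p B) := by
              refine sum_le_sum fun p hp => ?_
              rw [mem_sdiff] at hp
              by_contra hlt
              exact hp.2 (mem_filter.2 ⟨hp.1, by omega⟩)
          _ = 4 * ∑ p ∈ S i \ exc B (S i), #(nonmod p B) := by rw [mul_sum]
          _ ≤ _ := Nat.mul_le_mul_left _ (sum_le_sum_of_subset sdiff_subset)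
      have e9 : g ≤ 2 * #(S i \ exc B (S i)) := by
        have := hE i hi'
        have := (hS i hi').1
        omega
      calc g * #B ≤ (2 * #(S i \ exc B (S i))) * #B := Nat.mul_le_mul_right _ e9
        _ = 2 * (#(S i \ exc B (S i)) * #B) := by ring
        _ ≤ 2 * (4 * ∑ p ∈ S i, #(nonmod p B)) := Nat.mul_le_mul_left _ e8
        _ = _ := by ring
    calc g * (J * #B) = ∑ _i ∈ range J, g * #B := by
          rw [sum_const, card_range, smul_eq_mul]; ring
      _ ≤ _ := sum_le_sum e6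
  have hpos : 0 < g * (J * #B) := by positivity
  have e10 : g * (2 * (J * #B)) = 2 * (g * (J * #B)) := by ring
  rw [e10] at hup
  omega

end Helper66.MF
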