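import Pool.Agent.Helper96.PNT

namespace Helper66.MF

open Finset

/-- Primes `q ≡ -1 (mod A)` in `(Q, 2 Q]`, from the prime number theorem in arithmetic
progressions `Helper96.PNT.primesIoc_tendsto` (with `c = 1 / 2`, `x = 2 Q`). -/
theorem exists_blocks (A : ℕ) (hA : 0 < A) : ∃ c : ℝ, 0 < c ∧ ∃ Q0 : ℕ, 2 ≤ Q0 ∧ ∀ Q : ℕ, Q0 ≤ Q →
    c * Q / Real.log Q ≤ (#{q ∈ Ioc Q (2 * Q) | q.Prime ∧ A ∣ q + 1} : ℝ) := by
  haveI : NeZero A := ⟨hA.ne'⟩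
  have ha : IsUnit (-1 : ZMod A) := isUnit_one.neg
  have h := Helper96.PNT.primesIoc_tendsto ha (show (0:ℝ) ≤ 1 / 2 by norm_num)
    (show (1 / 2 : ℝ) < 1 by norm_num)
  have hφ : (0:ℝ) < (A.totient : ℝ)⁻¹ := by
    have : 0 < A.totient := Nat.totient_pos.mpr hA
    positivity
  have h2 := h.eventually_const_lt (show 1 / 4 * (A.totient : ℝ)⁻¹ < 1 / 2 * (A.totient : ℝ)⁻¹ by
    linarith)
  obtain ⟨X, hX⟩ := Filter.eventually_atTop.mp h2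
  refine ⟨1 / 4 * (A.totient : ℝ)⁻¹, by positivity, max 2 ⌈X⌉₊, le_max_left _ _, ?_⟩
  intro Q hQ
  have hQ2 : 2 ≤ Q := le_trans (le_max_left _ _) hQ
  have hQX : X ≤ (Q : ℝ) := by
    have h3 : ⌈X⌉₊ ≤ Q := le_trans (le_max_right _ _) hQ
    exact (Nat.le_ceil X).trans (by exact_mod_cast h3)
  have hQr : (2:ℝ) ≤ (Q : ℝ) := by exact_mod_cast hQ2
  have h3 := hX (2 * (Q : ℝ)) (by linarith)
  have hmid : (1 - 1 / 2 : ℝ) * (2 * (Q : ℝ)) = Q := by ring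
  rw [hmid] at h3
  have hset : Helper96.PNT.primesIoc (-1 : ZMod A) (Q : ℝ) (2 * (Q : ℝ)) =
      {q ∈ Ioc Q (2 * Q) | q.Prime ∧ A ∣ q + 1} := by
    ext p
    rw [Helper96.PNT.mem_primesIoc (by linarith), mem_filter, mem_Ioc]
    have e1 : ((Q : ℝ) < (p : ℝ)) ↔ Q < p := by exact_mod_cast Iff.rfl
    have e2 : ((p : ℝ) ≤ 2 * (Q : ℝ)) ↔ p ≤ 2 * Q := by exact_mod_cast Iff.rfl
    have e3 : ((p : ZMod A) = -1) ↔ A ∣ p + 1 := by
      rw [← ZMod.natCast_eq_zero_iff, Nat.cast_add, Nat.cast_one, eq_neg_iff_add_eq_zero]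
    rw [e1, e2, e3]
    tauto
  rw [hset] at h3
  have hlQ : 0 < Real.log Q := Real.log_pos (by linarith)
  have hl2 : Real.log (2 * (Q : ℝ)) ≤ 2 * Real.log Q := by
    rw [Real.log_mul (by norm_num) (by linarith)]
    have := Real.log_le_log (by norm_num) hQr
    linarith
  have hl2p : 0 < Real.log (2 * (Q : ℝ)) := Real.log_pos (by linarith)
  set n : ℝ := (#{q ∈ Ioc Q (2 * Q) | q.Prime ∧ A ∣ q + 1} : ℝ) with hn
  have hn0 : 0 ≤ n := by positivity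
  rw [lt_div_iff₀ (by linarith)] at h3
  rw [div_le_iff₀ hlQ]
  have h4 : n * Real.log (2 * (Q : ℝ)) ≤ n * (2 * Real.log Q) :=
    mul_le_mul_of_nonneg_left hl2 hn0
  nlinarith [h3, h4]

end Helper66.MF
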