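import Pool.Agent.Helper66.MF.Defs

namespace Helper66.MF

open Finset

/-- A positive integer less than `n ^ g` has at most `g` prime factors larger than `n`. -/
theorem card_large_primes {n g m : ℕ} (hm : 0 < m) (hmn : m < n ^ g) (B : Finset ℕ)
    (hB : ∀ q ∈ B, q.Prime ∧ n < q) (hd : ∀ q ∈ B, q ∣ m) : #B ≤ g := by
  have hn : 0 < n := by
    rcases Nat.eq_zero_or_pos n with h | h
    · subst h
      have : (0 : ℕ) ^ g ≤ 1 := by
        rcases Nat.eq_zero_or_pos g with h | h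
        · simp [h]
        · simp [Nat.zero_pow h]
      omega
    · exact h
  by_contra hlt
  push Not at hlt
  have h1 : ∏ q ∈ B, q ∣ m :=
    Finset.prod_primes_dvd m (fun q hq => (hB q hq).1.prime) hd
  have h2 : n ^ #B ≤ ∏ q ∈ B, q := by
    rw [← Finset.prod_const]
    exact Finset.prod_le_prod' (fun q hq => (hB q hq).2.le)
  have h3 : n ^ g ≤ n ^ #B := Nat.pow_le_pow_right hn hlt.le
  have h4 := Nat.le_of_dvd hm h1
  omega

private theorem coll_card_pairs {α β : Type*} [DecidableEq β] (s : Finset α)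
    (f : α → β) :
    #{x ∈ s ×ˢ s | f x.1 = f x.2} = ∑ b ∈ s.image f, #{x ∈ s | f x = b} ^ 2 := by
  rw [Finset.card_eq_sum_card_fiberwise (f := fun x : α × α => f x.1) (t := s.image f)]
  · apply Finset.sum_congr rfl
    intro b _
    rw [sq, ← Finset.card_product]
    congr 1
    ext ⟨x, y⟩
    simp only [Finset.mem_filter, Finset.mem_product]
    constructor
    · rintro ⟨⟨⟨h1, h2⟩, h3⟩, h4⟩
      exact ⟨⟨h1, h4⟩, h2, h3 ▸ h4⟩
    · rintro ⟨⟨h1, h2⟩, h3, h4⟩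
      exact ⟨⟨⟨h1, h3⟩, h2.trans h4.symm⟩, h2⟩
  · intro x hx
    have hx' := (Finset.mem_filter.1 (Finset.mem_coe.1 hx)).1
    exact Finset.mem_coe.2 (Finset.mem_image_of_mem f (Finset.mem_product.1 hx').1)

private theorem coll_sq_le {α β : Type*} [DecidableEq β] (s : Finset α)
    (f : α → β) :
    #s ^ 2 ≤ #(s.image f) * #{x ∈ s ×ˢ s | f x.1 = f x.2} := by
  rw [coll_card_pairs]
  have h : #s = ∑ b ∈ s.image f, #{x ∈ s | f x = b} :=
    Finset.card_eq_sum_card_image f s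
  calc #s ^ 2 = (∑ b ∈ s.image f, #{x ∈ s | f x = b}) ^ 2 := by rw [← h]
    _ ≤ _ := sq_sum_le_card_mul_sum_sq

/-- Cauchy–Schwarz: number of pairs of subsets with congruent products. -/
theorem four_pow_le (q : ℕ) (S : Finset ℕ) :
    4 ^ #S ≤ cnt q S * #{x ∈ S.powerset ×ˢ S.powerset |
      ((∏ p ∈ x.1, p : ℕ) : ZMod q) = ((∏ p ∈ x.2, p : ℕ) : ZMod q)} := by
  have h := coll_sq_le S.powerset (fun I => ((∏ p ∈ I, p : ℕ) : ZMod q))
  have h4 : #S.powerset ^ 2 = 4 ^ #S := by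
    rw [Finset.card_powerset, ← pow_mul, mul_comm, pow_mul]
    norm_num
  rw [h4] at h
  exact h

private theorem coll_pair (n : ℕ) (S : Finset ℕ) (hS : ∀ p ∈ S, p.Prime ∧ p ≤ n) (B : Finset ℕ)
    (hB : ∀ q ∈ B, q.Prime ∧ n < q) (I J : Finset ℕ) (hI : I ⊆ S) (hJ : J ⊆ S) (hne : I ≠ J)
    (hlt : ∏ p ∈ J, p ≤ ∏ p ∈ I, p) :
    #{q ∈ B | ((∏ p ∈ I, p : ℕ) : ZMod q) = ((∏ p ∈ J, p : ℕ) : ZMod q)} ≤ #S := by
  have hpI : (∏ p ∈ I, p).primeFactors = I := Nat.primeFactors_prod (fun p hp => (hS p (hI hp)).1)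
  have hpJ : (∏ p ∈ J, p).primeFactors = J := Nat.primeFactors_prod (fun p hp => (hS p (hJ hp)).1)
  have hne' : ∏ p ∈ J, p ≠ ∏ p ∈ I, p := by
    intro h
    apply hne
    rw [← hpI, ← hpJ, h]
  have hlt' : ∏ p ∈ J, p < ∏ p ∈ I, p := lt_of_le_of_ne hlt hne'
  have hJ0 : 0 < ∏ p ∈ J, p := Finset.prod_pos (fun p hp => (hS p (hJ hp)).1.pos)
  have hn : 0 < n := by
    rcases Finset.eq_empty_or_nonempty I with h | ⟨p, hp⟩
    · rw [h, Finset.prod_empty] at hlt'
      omega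
    · exact lt_of_lt_of_le (hS p (hI hp)).1.pos (hS p (hI hp)).2
  have hIn : ∏ p ∈ I, p ≤ n ^ #S := by
    calc ∏ p ∈ I, p ≤ ∏ _p ∈ I, n := Finset.prod_le_prod' (fun p hp => (hS p (hI hp)).2)
      _ = n ^ #I := by rw [Finset.prod_const]
      _ ≤ n ^ #S := Nat.pow_le_pow_right hn (Finset.card_le_card hI)
  apply card_large_primes (n := n) (m := ∏ p ∈ I, p - ∏ p ∈ J, p)
  · omega
  · omega
  · intro q hq
    exact hB q (Finset.mem_filter.1 hq).1
  · intro q hq
    have h := (Finset.mem_filter.1 hq).2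
    rw [ZMod.natCast_eq_natCast_iff] at h
    exact (Nat.modEq_iff_dvd' hlt).1 h.symm

/-- Gallagher's larger sieve for the subset products of a set `S` of primes.
For each `q`, `1 / cnt q S ≤ coll q / 4 ^ g` (`four_pow_le`), where `coll q` counts the pairs of
subsets `(I, I')` with `∏ I ≡ ∏ I' (mod q)`. Exchange the sums: a pair with `I = I'` is counted
`#B` times, a pair with `I ≠ I'` at most `g` times (`card_large_primes` for
`m = |∏ I - ∏ I'|`, nonzero by unique factorisation and less than `n ^ g`). -/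
theorem sum_inv_cnt_le (n : ℕ) (S : Finset ℕ) (hS : ∀ p ∈ S, p.Prime ∧ p ≤ n) (B : Finset ℕ)
    (hB : ∀ q ∈ B, q.Prime ∧ n < q) :
    ∑ q ∈ B, (1 : ℝ) / cnt q S ≤ #B / 2 ^ #S + #S := by
  classical
  set g := #S with hg
  -- number of collisions
  have hcoll : ∑ q ∈ B, #{x ∈ S.powerset ×ˢ S.powerset |
      ((∏ p ∈ x.1, p : ℕ) : ZMod q) = ((∏ p ∈ x.2, p : ℕ) : ZMod q)} ≤ 2 ^ g * #B + 4 ^ g * g := by
    have h1 : ∑ q ∈ B, #{x ∈ S.powerset ×ˢ S.powerset |
      ((∏ p ∈ x.1, p : ℕ) : ZMod q) = ((∏ p ∈ x.2, p : ℕ) : ZMod q)} =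
      ∑ x ∈ S.powerset ×ˢ S.powerset, #{q ∈ B |
      ((∏ p ∈ x.1, p : ℕ) : ZMod q) = ((∏ p ∈ x.2, p : ℕ) : ZMod q)} := by
      simp only [Finset.card_filter]
      exact Finset.sum_comm
    rw [h1]
    have h2 : ∀ x ∈ S.powerset ×ˢ S.powerset, #{q ∈ B |
      ((∏ p ∈ x.1, p : ℕ) : ZMod q) = ((∏ p ∈ x.2, p : ℕ) : ZMod q)} ≤
      (if x.1 = x.2 then #B else 0) + g := by
      rintro ⟨I, J⟩ hx
      simp only [Finset.mem_product, Finset.mem_powerset] at hx
      simp only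
      by_cases hIJ : I = J
      · rw [if_pos hIJ]
        exact le_trans (Finset.card_filter_le _ _) (Nat.le_add_right _ _)
      · rw [if_neg hIJ, zero_add]
        rcases le_total (∏ p ∈ J, p) (∏ p ∈ I, p) with h | h
        · exact coll_pair n S hS B hB I J hx.1 hx.2 hIJ h
        · have := coll_pair n S hS B hB J I hx.2 hx.1 (Ne.symm hIJ) h
          refine le_trans (le_of_eq ?_) this
          congr 1
          apply Finset.filter_congr
          intro q _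
          exact eq_comm
    refine le_trans (Finset.sum_le_sum h2) ?_
    rw [Finset.sum_add_distrib, Finset.sum_const, Finset.card_product, Finset.card_powerset,
      Finset.sum_product]
    have h3 : ∀ I ∈ S.powerset, ∑ J ∈ S.powerset, (if I = J then #B else 0) = #B := by
      intro I hI
      rw [Finset.sum_ite_eq, if_pos hI]
    rw [Finset.sum_congr rfl h3, Finset.sum_const, Finset.card_powerset]
    have h4 : 2 ^ #S * 2 ^ #S = 4 ^ g := by rw [← mul_pow, ← hg]; norm_num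
    simp only [smul_eq_mul]
    rw [h4]
  have h5 : ∀ q ∈ B, (1 : ℝ) / cnt q S ≤ (#{x ∈ S.powerset ×ˢ S.powerset |
      ((∏ p ∈ x.1, p : ℕ) : ZMod q) = ((∏ p ∈ x.2, p : ℕ) : ZMod q)} : ℝ) / 4 ^ g := by
    intro q _
    have hpos : 0 < cnt q S := by
      unfold cnt
      rw [Finset.card_pos]
      exact ⟨_, Finset.mem_image_of_mem _ (Finset.empty_mem_powerset S)⟩
    rw [div_le_div_iff₀ (by exact_mod_cast hpos) (by positivity), one_mul, mul_comm]
    exact_mod_cast four_pow_le q S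
  refine le_trans (Finset.sum_le_sum h5) ?_
  rw [← Finset.sum_div, div_le_iff₀ (by positivity)]
  have h6 : ((∑ q ∈ B, #{x ∈ S.powerset ×ˢ S.powerset |
      ((∏ p ∈ x.1, p : ℕ) : ZMod q) = ((∏ p ∈ x.2, p : ℕ) : ZMod q)} : ℕ) : ℝ) ≤
      2 ^ g * #B + 4 ^ g * g := by exact_mod_cast hcoll
  rw [Nat.cast_sum] at h6
  refine le_trans h6 (le_of_eq ?_)
  have h7 : (4 : ℝ) ^ g = 2 ^ g * 2 ^ g := by rw [← mul_pow]; norm_num
  rw [h7]
  field_simp

end Helper66.MF
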