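import Pool.Agent.Helper66.MF.Small

namespace Helper66.MF

open Finset
open scoped Pointwise

variable {G : Type} [CommGroup G] [Fintype G] [DecidableEq G]

open Classical in
private theorem many_aux (D : ℕ → Finset G) (hD : ∀ i, (D i)⁻¹ = D i) (h1 : ∀ i, (1 : G) ∈ D i)
    (T J : ℕ) :
    ∃ H : Subgroup G, (∀ x ∈ ∏ i ∈ range J, D i, ∀ h ∈ H, x * h ∈ ∏ i ∈ range J, D i) ∧
      T * #{i ∈ range J | T ≤ #(D i) ∧ ¬ ((D i : Set G) ⊆ (H : Set G))} ≤
        16 * #(∏ i ∈ range J, D i) := by
  induction J with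
  | zero =>
    refine ⟨⊥, ?_, by simp⟩
    intro x hx h hh
    rw [Subgroup.mem_bot] at hh
    rw [hh, mul_one]
    exact hx
  | succ J ih =>
    obtain ⟨H, hH, hT⟩ := ih
    rw [prod_range_succ]
    set P := ∏ i ∈ range J, D i with hP
    have hPle : #P ≤ #(P * D J) := card_le_card_mul_right ⟨1, h1 J⟩
    have hstab : ∀ x ∈ P * D J, ∀ h ∈ H, x * h ∈ P * D J := by
      intro x hx h hh
      obtain ⟨p, hp, d, hd, rfl⟩ := mem_mul.1 hx
      rw [mul_right_comm]
      exact mul_mem_mul (hH p hp h hh) hd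
    rcases Nat.lt_or_ge (16 * #(P * D J)) (16 * #P + #(D J)) with hlt | hge
    · -- enlarge the subgroup
      have hK := small_step (hD J) (h1 J) hlt
      refine ⟨H ⊔ Subgroup.closure (D J : Set G), ?_, ?_⟩
      · intro x hx h hh
        obtain ⟨y, hy, z, hz, rfl⟩ := Subgroup.mem_sup.1 hh
        rw [← mul_assoc]
        exact hK _ (hstab x hx y hy) z hz
      · refine (Nat.mul_le_mul_left T (card_le_card ?_)).trans
          (hT.trans (Nat.mul_le_mul_left 16 hPle))
        intro i hi
        simp only [mem_filter, mem_range] at hi ⊢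
        obtain ⟨hi1, hi2, hi3⟩ := hi
        have hne : i ≠ J := by
          rintro rfl
          apply hi3
          intro y hy
          exact (le_sup_right : Subgroup.closure (D i : Set G) ≤ _) (Subgroup.subset_closure hy)
        refine ⟨by omega, hi2, fun hsub => hi3 fun y hy => ?_⟩
        exact (le_sup_left : H ≤ _) (hsub hy)
    · -- keep the subgroup
      refine ⟨H, hstab, ?_⟩
      rw [range_add_one, filter_insert]
      split_ifs with hc
      · have h2 : #(insert J {i ∈ range J | T ≤ #(D i) ∧ ¬ ((D i : Set G) ⊆ (H : Set G))}) ≤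
            #{i ∈ range J | T ≤ #(D i) ∧ ¬ ((D i : Set G) ⊆ (H : Set G))} + 1 :=
          card_insert_le _ _
        have h3 := Nat.mul_le_mul_left T h2
        rw [mul_add, mul_one] at h3
        have h4 := hc.1
        omega
      · exact hT.trans (Nat.mul_le_mul_left 16 hPle)

open Classical in
/-- The product of the symmetric sets `D 0, …, D (J - 1)` contains a subgroup `H` which contains
all the `D i` with at least `T` elements with at most `16 |G| / T` exceptions.

Proof by induction on `J` of the stronger statement: with `P = ∏ i ∈ range J, D i`, there is a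
subgroup `H` with `x * h ∈ P` for `x ∈ P`, `h ∈ H`, and
`T * #{i ∈ range J | T ≤ #(D i) ∧ ¬ (D i ⊆ H)} ≤ 16 * #P` (and `1 ∈ P`). Step: if
`16 |P D_J| ≥ 16 |P| + |D_J|` keep `H`; otherwise replace `H` by `H ⊔ closure D_J`
(`small_step`; an element of `H ⊔ K` is a product of an element of `H` and one of `K`). -/
theorem many_sets (D : ℕ → Finset G) (hD : ∀ i, (D i)⁻¹ = D i) (h1 : ∀ i, (1 : G) ∈ D i)
    (T J : ℕ) :
    ∃ H : Subgroup G, (∀ h ∈ H, h ∈ ∏ i ∈ range J, D i) ∧
      T * #{i ∈ range J | T ≤ #(D i) ∧ ¬ ((D i : Set G) ⊆ (H : Set G))} ≤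
        16 * Fintype.card G := by
  obtain ⟨H, hH, hT⟩ := many_aux D hD h1 T J
  have hone : ∀ J : ℕ, (1 : G) ∈ ∏ i ∈ range J, D i := by
    intro J
    induction J with
    | zero => simp
    | succ J ih =>
      rw [prod_range_succ]
      have h2 := mul_mem_mul ih (h1 J)
      rwa [mul_one] at h2
  refine ⟨H, fun h hh => ?_, hT.trans (Nat.mul_le_mul_left 16 (card_le_univ _))⟩
  have h2 := hH 1 (hone J) h hh
  rwa [one_mul] at h2

end Helper66.MF
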