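import Mathlib

namespace Helper66.MF

/-- If `-1 ∉ H` then `H` has odd order (an element of order two in `(ZMod q)ˣ` is `-1`), so all its
elements are squares: `h = (h ^ ((|H| + 1) / 2)) ^ 2`. -/
theorem isSquare_of_neg_one_notMem {q : ℕ} [Fact q.Prime] (H : Subgroup (ZMod q)ˣ)
    (h : (-1 : (ZMod q)ˣ) ∉ H) : ∀ x ∈ H, IsSquare (x : ZMod q) := by
  have hodd : Odd (Nat.card H) := by
    rw [← Nat.not_even_iff_odd]
    intro he
    have h2 : 2 ∣ Nat.card H := even_iff_two_dvd.1 he
    have : Fact (Nat.Prime 2) := ⟨Nat.prime_two⟩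
    obtain ⟨x, hx⟩ := exists_prime_orderOf_dvd_card' (G := H) 2 h2
    have hx2 : x ^ 2 = 1 := by rw [← hx]; exact pow_orderOf_eq_one x
    have hx1 : x ≠ 1 := by rintro rfl; simp at hx
    have e : ((x : (ZMod q)ˣ) : ZMod q) ^ 2 = 1 := by
      have := congrArg (fun y : H => (((y : (ZMod q)ˣ)) : ZMod q)) hx2
      simpa using this
    have e' : (((x : (ZMod q)ˣ) : ZMod q) - 1) * (((x : (ZMod q)ˣ) : ZMod q) + 1) = 0 := by
      linear_combination e
    rcases mul_eq_zero.1 e' with e1 | e1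
    · apply hx1
      apply Subtype.ext
      apply Units.ext
      simpa [sub_eq_zero] using e1
    · apply h
      have : (-1 : (ZMod q)ˣ) = (x : (ZMod q)ˣ) := by
        apply Units.ext
        simp only [Units.val_neg, Units.val_one]
        linear_combination -e1
      rw [this]
      exact x.2
  intro x hx
  obtain ⟨m, hm⟩ := hodd
  have hp : (⟨x, hx⟩ : H) ^ (Nat.card H) = 1 := pow_card_eq_one'
  have hp2 : x ^ (Nat.card H) = 1 := by
    have := congrArg Subtype.val hp
    rwa [SubgroupClass.coe_pow, OneMemClass.coe_one] at this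
  refine ⟨((x ^ (m + 1) : (ZMod q)ˣ) : ZMod q), ?_⟩
  rw [← Units.val_mul]
  congr 1
  rw [← pow_add, show m + 1 + (m + 1) = (2 * m + 1) + 1 by ring, ← hm, pow_succ, hp2, one_mul]

end Helper66.MF
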