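import Pool.Agent.Helper66.MF.Signed
import Pool.Agent.Helper66.MF.Many
import Pool.Agent.Helper66.MF.Sq

namespace Helper66.MF

open Finset
open scoped Pointwise

/-- One modulus `q`. If `-1` is not a signed product (else `rep_of_neg_one`), let `H` be the
subgroup of `many_sets` for `D i = sd q (S i)`, so `-1 ∉ H`. If `T ≤ cnt q (S i)` and `S i` has a
non-square modulo `q` then `T ≤ #(sd q (S i))` and `sd q (S i)` is not contained in `H`
(`isSquare_of_neg_one_notMem`, `un_mem_sd`). -/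
theorem one_modulus {a b q J T : ℕ} (hq : q.Prime) (hb : 0 < b) (ha : a ∣ q + 1)
    (S : ℕ → Finset ℕ) (hS : ∀ i < J, ∀ p ∈ S i, (p : ZMod q) ≠ 0)
    (hSb : ∏ i ∈ range J, ∏ p ∈ S i, p ∣ b) (hR : ¬ Rep3 a b) :
    T * #{i ∈ range J | T ≤ cnt q (S i) ∧ (nonres q (S i)).Nonempty} ≤ 16 * q := by
  have : Fact q.Prime := ⟨hq⟩
  obtain ⟨H, hH, hT⟩ := many_sets (fun i => sd q (S i)) (fun i => sd_inv (S i))
    (fun i => one_mem_sd (S i)) T J
  have h1 : (-1 : (ZMod q)ˣ) ∉ H := fun h => hR (rep_of_neg_one hb ha S J hS hSb (hH _ h))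
  have h2 := isSquare_of_neg_one_notMem H h1
  refine (Nat.mul_le_mul_left T (card_le_card ?_)).trans (hT.trans (Nat.mul_le_mul_left 16 ?_))
  · intro i hi
    simp only [mem_filter, mem_range] at hi ⊢
    obtain ⟨hi1, hi2, p, hp⟩ := hi
    refine ⟨hi1, hi2.trans (cnt_le (hS i hi1)), fun hsub => ?_⟩
    simp only [nonres, mem_filter] at hp
    apply hp.2
    have h3 := h2 _ (hsub (mem_coe.2 (un_mem_sd hp.1)))
    rwa [un_coe (hS i hi1 p hp.1)] at h3
  · rw [ZMod.card_units]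
    exact Nat.sub_le q 1

end Helper66.MF
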