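import Pool.Agent.Helper66.MF.Ident

namespace Helper66.MF

open Finset

/-- The signed products of a list, as quotients `f / g` with `f g` dividing the product. -/
private def Crit_P (q : ℕ) (l : List ℕ) : Set (ZMod q)ˣ :=
  {x | ∃ f g : ℕ, f * g ∣ l.prod ∧ (x : ZMod q) * g = f}

private theorem Crit_mono (q p : ℕ) (l : List ℕ) : Crit_P q l ⊆ Crit_P q (p :: l) := by
  rintro x ⟨f, g, hfg, hx⟩
  exact ⟨f, g, hfg.trans (by rw [List.prod_cons]; exact Dvd.intro_left _ rfl), hx⟩

private theorem Crit_list (q : ℕ) [Fact q.Prime] (l : List ℕ)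
    (hl : ∀ p ∈ l, ¬ IsSquare (p : ZMod q)) :
    (∃ f g : ℕ, f * g ∣ l.prod ∧ q ∣ f + g) ∨ l.length + 1 ≤ (Crit_P q l).ncard := by
  induction l with
  | nil =>
    right
    have h1 : (1 : (ZMod q)ˣ) ∈ Crit_P q [] := ⟨1, 1, by simp, by simp⟩
    have : 0 < (Crit_P q []).ncard := Set.ncard_pos (Set.toFinite _) |>.2 ⟨1, h1⟩
    have h2 : ([] : List ℕ).length + 1 = 1 := rfl
    rw [h2]
    exact this
  | cons p l ih =>
    have hp : ¬ IsSquare (p : ZMod q) := hl p (by simp)
    have hp0 : (p : ZMod q) ≠ 0 := by
      intro h0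
      exact hp (by rw [h0]; exact ⟨0, by simp⟩)
    rcases ih (fun r hr => hl r (by simp [hr])) with ⟨f, g, hfg, hq⟩ | ih
    · left
      exact ⟨f, g, hfg.trans (by rw [List.prod_cons]; exact Dvd.intro_left _ rfl), hq⟩
    · by_cases he : Crit_P q (p :: l) = Crit_P q l
      · left
        have hstep : ∀ x ∈ Crit_P q l, Units.mk0 _ hp0 * x ∈ Crit_P q l := by
          rintro x ⟨f, g, hfg, hx⟩
          rw [← he]
          refine ⟨p * f, g, ?_, ?_⟩
          · rw [List.prod_cons, mul_assoc]
            exact mul_dvd_mul_left _ hfg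
          · push_cast
            rw [Units.val_mk0, mul_assoc, hx]
        have hpow : ∀ k : ℕ, Units.mk0 _ hp0 ^ k ∈ Crit_P q l := by
          intro k
          induction k with
          | zero => exact ⟨1, 1, by simp, by simp⟩
          | succ k ihk =>
            rw [pow_succ']
            exact hstep _ ihk
        obtain ⟨f, g, hfg, hx⟩ := hpow (q / 2)
        have hm : (p : ZMod q) ^ (q / 2) = -1 := by
          rcases ZMod.pow_div_two_eq_neg_one_or_one q hp0 with h | h
          · exact absurd ((ZMod.euler_criterion q hp0).2 h) hp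
          · exact h
        refine ⟨f, g, hfg.trans (by rw [List.prod_cons]; exact Dvd.intro_left _ rfl), ?_⟩
        rw [← ZMod.natCast_eq_zero_iff]
        push_cast
        rw [← hx, Units.val_pow_eq_pow_val, Units.val_mk0, hm]
        ring
      · right
        have hlt : (Crit_P q l).ncard < (Crit_P q (p :: l)).ncard :=
          Set.ncard_lt_ncard ((Crit_mono q p l).ssubset_of_ne (fun h => he h.symm))
            (Set.toFinite _)
        rw [List.length_cons]
        omega

/-- List form of the greedy argument. -/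
theorem Crit_exists (q : ℕ) [Fact q.Prime] (l : List ℕ)
    (hl : ∀ p ∈ l, ¬ IsSquare (p : ZMod q)) (hlen : q - 1 ≤ l.length) :
    ∃ f g : ℕ, f * g ∣ l.prod ∧ q ∣ f + g := by
  rcases Crit_list q l hl with h | h
  · exact h
  · exfalso
    have h2 : (Crit_P q l).ncard ≤ q - 1 := by
      calc (Crit_P q l).ncard ≤ (Set.univ : Set (ZMod q)ˣ).ncard :=
            Set.ncard_le_ncard (Set.subset_univ _) (Set.toFinite _)
        _ = Nat.card (ZMod q)ˣ := Set.ncard_univ _
        _ = q - 1 := by rw [Nat.card_eq_fintype_card, ZMod.card_units]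
    omega

/-- The elementary criterion: `q` a prime with `a ∣ q + 1`, and `b` has at least `q - 1` prime
factors, with multiplicity, which are not squares modulo `q`.

Proof: let `p_1, …, p_r` be these prime factors (`r ≥ q - 1`, product dividing `b`), `P_j` the set
of signed products `∏ p_i ^ e_i`, `i ≤ j`, `e_i ∈ {-1, 0, 1}`, in `(ZMod q)ˣ`. If `P_j ≠ P_{j-1}`
for all `j ≤ r` then `|P_r| ≥ r + 1 ≥ q`, impossible. If `P_j = P_{j-1}` then `p_j P_{j-1} ⊆
P_{j-1}`, so `P_{j-1}` contains all the powers of `p_j`; as `p_j` is not a square it has even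
order (`(p_j) ^ ((q - 1) / 2) = -1`), so `-1 ∈ P_{j-1}`. Write `-1 = f / g` with `f g ∣ b` and use
`rep_of_dvd`. (Convenient form: for a list or multiset `s` of naturals which are non-squares
modulo `q`, with `q - 1 ≤ card s`, there are `f g : ℕ` with `f * g ∣ s.prod` and
`q ∣ f + g`.) -/
theorem criterion {a b q : ℕ} (hq : q.Prime) (ha : a ∣ q + 1) (hb : 0 < b)
    (h : q - 1 ≤ ∑ p ∈ nonres q b.primeFactors, b.factorization p) : Rep3 a b := by
  classical
  have : Fact q.Prime := ⟨hq⟩
  set l : List ℕ := b.primeFactorsList.filter (fun p => ¬ IsSquare (p : ZMod q)) with hl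
  have hmem : ∀ p ∈ l, ¬ IsSquare (p : ZMod q) := by
    intro p hp
    rw [hl, List.mem_filter] at hp
    simpa using hp.2
  have hlen : l.length = ∑ p ∈ nonres q b.primeFactors, b.factorization p := by
    rw [← List.sum_toFinset_count_eq_length]
    have hfin : l.toFinset = nonres q b.primeFactors := by
      ext p
      simp only [List.mem_toFinset, hl, List.mem_filter, nonres, Finset.mem_filter,
        decide_eq_true_eq, Nat.mem_primeFactors, Nat.mem_primeFactorsList']
    rw [hfin]
    refine Finset.sum_congr rfl fun p hp => ?_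
    have hns : ¬ IsSquare (p : ZMod q) := by
      simp only [nonres, Finset.mem_filter] at hp
      exact hp.2
    have hc : List.count p l = List.count p b.primeFactorsList := by
      rw [hl]
      apply List.count_filter
      simpa using hns
    rw [hc, Nat.primeFactorsList_count_eq]
  have hprod : l.prod ∣ b := by
    have h1 : l.prod ∣ b.primeFactorsList.prod :=
      (List.filter_sublist (l := b.primeFactorsList)).prod_dvd_prod
    rwa [Nat.prod_primeFactorsList hb.ne'] at h1
  obtain ⟨f, g, hfg, hqd⟩ := Crit_exists q l hmem (by rw [hlen]; exact h)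
  exact rep_of_dvd hb (hfg.trans hprod) hqd ha

end Helper66.MF
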