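import Mathlib

/-!
# Many prime factors: definitions

Sums of three unit fractions, and signed products of prime factors modulo a prime `q`.
-/

namespace Helper66.MF

open Finset
open scoped Pointwise

/-- `a / b` is a sum of three unit fractions. -/
def Rep3 (a b : ℕ) : Prop :=
  ∃ x y z : ℕ, 0 < x ∧ 0 < y ∧ 0 < z ∧ (a : ℚ) / b = 1 / x + 1 / y + 1 / z

/-- The number of residues modulo `q` of the subset products of `S`. -/
def cnt (q : ℕ) (S : Finset ℕ) : ℕ :=
  #(S.powerset.image (fun I => ((∏ p ∈ I, p : ℕ) : ZMod q)))

open Classical in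
/-- The elements of `S` which are not squares modulo `q`. -/
noncomputable def nonres (q : ℕ) (S : Finset ℕ) : Finset ℕ :=
  S.filter (fun p => ¬ IsSquare (p : ZMod q))

open Classical in
/-- The elements `q` of `B` modulo which `p` is not a square. -/
noncomputable def nonmod (p : ℕ) (B : Finset ℕ) : Finset ℕ :=
  B.filter (fun q => ¬ IsSquare (p : ZMod q))

/-- The exceptional elements of `S`: those which are non-squares for at most a quarter of the
moduli in `B`. -/
noncomputable def exc (B S : Finset ℕ) : Finset ℕ :=
  S.filter (fun p => 4 * #(nonmod p B) ≤ #B)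

/-- The residue of `p` as a unit modulo `q` (and `1` if `q` divides `p`). -/
noncomputable def un (q : ℕ) [Fact q.Prime] (p : ℕ) : (ZMod q)ˣ :=
  if h : (p : ZMod q) ≠ 0 then Units.mk0 _ h else 1

/-- The subset products of `S` modulo `q`. -/
noncomputable def sp (q : ℕ) [Fact q.Prime] (S : Finset ℕ) : Finset (ZMod q)ˣ :=
  S.powerset.image (fun I => ∏ p ∈ I, un q p)

/-- The quotients of subset products of `S` modulo `q`. -/
noncomputable def sd (q : ℕ) [Fact q.Prime] (S : Finset ℕ) : Finset (ZMod q)ˣ :=
  sp q S * (sp q S)⁻¹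

end Helper66.MF
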