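import Mathlib

namespace Helper66.MF

open Finset

/-- Distribution into groups. Induction on `J`. Let `J * g ≤ ∑ p ∈ Z, min (v p) J` with `J ≥ 1`
(`g = 0` is trivial).
Let `Z1 = {p ∈ Z : J ≤ v p}`, `Z0 = {p ∈ Z : 1 ≤ v p}`; `#Z0 ≥ g` since the sum is at most
`J * #Z0`. Choose `S 0 ⊆ Z0` with `g` elements, inside `Z1` if `g ≤ #Z1` and containing `Z1`
otherwise (`Finset.exists_subsuperset_card_eq`). Let `v' p = v p - 1` for `p ∈ S 0` and
`v' p = v p` otherwise. Then `(J - 1) * g ≤ ∑ p ∈ Z, min (v' p) (J - 1)`: in the first case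
already the elements of `S 0` give `(J - 1) * g`, in the second
`min (v' p) (J - 1) = min (v p) J - [p ∈ S 0]` for all `p`. -/
theorem distribute (Z : Finset ℕ) (g : ℕ) : ∀ (J : ℕ) (v : ℕ → ℕ),
    J * g ≤ ∑ p ∈ Z, min (v p) J →
    ∃ S : ℕ → Finset ℕ, (∀ i < J, S i ⊆ Z ∧ #(S i) = g) ∧
      ∀ p ∈ Z, #{i ∈ range J | p ∈ S i} ≤ v p := by
  intro J
  induction J with
  | zero =>
    intro v _
    exact ⟨fun _ => ∅, fun i hi => absurd hi (Nat.not_lt_zero i), fun p _ => by simp⟩
  | succ J ih =>
    intro v hv
    -- the choice of the first group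
    have key : ∃ T : Finset ℕ, T ⊆ Z ∧ #T = g ∧ (∀ p ∈ T, 1 ≤ v p) ∧
        J * g ≤ ∑ p ∈ Z, min (if p ∈ T then v p - 1 else v p) J := by
      set Z1 := Z.filter (fun p => J + 1 ≤ v p) with hZ1
      set Z0 := Z.filter (fun p => 1 ≤ v p) with hZ0
      have h10 : Z1 ⊆ Z0 := by
        intro p hp
        rw [hZ1, mem_filter] at hp
        rw [hZ0, mem_filter]
        exact ⟨hp.1, by omega⟩
      have hcard : g ≤ #Z0 := by
        have h1 : ∑ p ∈ Z, min (v p) (J + 1) = ∑ p ∈ Z0, min (v p) (J + 1) := by
          rw [hZ0, sum_filter]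
          refine sum_congr rfl fun p _ => ?_
          split_ifs with h
          · rfl
          · have : v p = 0 := by omega
            simp [this]
        have h2 : ∑ p ∈ Z0, min (v p) (J + 1) ≤ #Z0 * (J + 1) := by
          refine (sum_le_card_nsmul _ _ (J + 1) fun p _ => min_le_right _ _).trans ?_
          rw [smul_eq_mul]
        have h3 : (J + 1) * g ≤ (J + 1) * #Z0 := by
          rw [Nat.mul_comm (J + 1) #Z0]
          exact hv.trans (h1.le.trans h2)
        exact Nat.le_of_mul_le_mul_left h3 (Nat.succ_pos J)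
      rcases le_or_gt g #Z1 with hg | hg
      · obtain ⟨T, hT, hTc⟩ := exists_subset_card_eq hg
        have hTZ : T ⊆ Z := hT.trans (filter_subset _ _)
        refine ⟨T, hTZ, hTc, fun p hp => ?_, ?_⟩
        · have := hT hp
          rw [hZ1, mem_filter] at this
          omega
        · calc J * g = ∑ p ∈ T, J := by rw [sum_const, smul_eq_mul, hTc, Nat.mul_comm]
            _ ≤ ∑ p ∈ T, min (if p ∈ T then v p - 1 else v p) J := by
              refine sum_le_sum fun p hp => ?_
              have := hT hp
              rw [hZ1, mem_filter] at this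
              rw [if_pos hp]
              exact le_min (by omega) le_rfl
            _ ≤ ∑ p ∈ Z, min (if p ∈ T then v p - 1 else v p) J :=
              sum_le_sum_of_subset hTZ
      · obtain ⟨T, hT1, hT0, hTc⟩ := exists_subsuperset_card_eq h10 hg.le hcard
        have hTZ : T ⊆ Z := hT0.trans (filter_subset _ _)
        refine ⟨T, hTZ, hTc, fun p hp => ?_, ?_⟩
        · have := hT0 hp
          rw [hZ0, mem_filter] at this
          exact this.2
        · have h1 : ∑ p ∈ Z, min (if p ∈ T then v p - 1 else v p) J + #T =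
              ∑ p ∈ Z, min (v p) (J + 1) := by
            have h2 : #T = ∑ p ∈ Z, if p ∈ T then 1 else 0 := by
              rw [← sum_filter, ← card_eq_sum_ones]
              congr 1
              ext p
              rw [mem_filter]
              exact ⟨fun h => ⟨hTZ h, h⟩, fun h => h.2⟩
            rw [h2, ← sum_add_distrib]
            refine sum_congr rfl fun p hp => ?_
            split_ifs with h
            · have h3 : 1 ≤ v p := by
                have := hT0 h
                rw [hZ0, mem_filter] at this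
                exact this.2
              omega
            · have h3 : ¬ (J + 1 ≤ v p) := fun h4 =>
                h (hT1 (by rw [hZ1, mem_filter]; exact ⟨hp, h4⟩))
              omega
          rw [hTc] at h1
          have h4 : (J + 1) * g = J * g + g := by ring
          omega
    obtain ⟨T, hTZ, hTc, hT1, hT⟩ := key
    obtain ⟨S, hS, hSv⟩ := ih _ hT
    refine ⟨fun i => if i = 0 then T else S (i - 1), fun i hi => ?_, fun p hp => ?_⟩
    · rcases Nat.eq_zero_or_pos i with h0 | h0
      · subst h0
        exact ⟨by simpa using hTZ, by simpa using hTc⟩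
      · simp only [if_neg h0.ne']
        exact hS (i - 1) (by omega)
    · have h1 := hSv p hp
      rw [card_filter] at h1 ⊢
      rw [sum_range_succ']
      simp only [Nat.add_eq_zero_iff, one_ne_zero, and_false, if_false, Nat.add_sub_cancel,
        if_true]
      by_cases hpT : p ∈ T
      · have := hT1 p hpT
        rw [if_pos hpT] at h1 ⊢
        omega
      · rw [if_neg hpT] at h1 ⊢
        omega

/-- The groups of prime factors. The double product is
`∏ p ∈ Z, p ^ #{i ∈ range J | p ∈ S i}`, which divides `∏ p ∈ Z, p ^ b.factorization p`. -/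
theorem exists_groups {b : ℕ} (hb : 0 < b) (Z : Finset ℕ) (hZ : ∀ p ∈ Z, p.Prime) (g J : ℕ)
    (h : J * g ≤ ∑ p ∈ Z, min (b.factorization p) J) :
    ∃ S : ℕ → Finset ℕ, (∀ i < J, #(S i) = g ∧ S i ⊆ Z) ∧
      ∏ i ∈ range J, ∏ p ∈ S i, p ∣ b := by
  obtain ⟨S, hS, hv⟩ := distribute Z g J (fun p => b.factorization p) h
  refine ⟨S, fun i hi => ⟨(hS i hi).2, (hS i hi).1⟩, ?_⟩
  have h1 : ∏ i ∈ range J, ∏ p ∈ S i, p = ∏ p ∈ Z, p ^ #{i ∈ range J | p ∈ S i} := by
    have h2 : ∀ i ∈ range J, ∏ p ∈ S i, p = ∏ p ∈ Z, if p ∈ S i then p else 1 := by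
      intro i hi
      rw [← prod_filter]
      congr 1
      ext p
      rw [mem_filter]
      exact ⟨fun h => ⟨(hS i (mem_range.1 hi)).1 h, h⟩, fun h => h.2⟩
    rw [prod_congr rfl h2, prod_comm]
    refine prod_congr rfl fun p _ => ?_
    rw [← prod_filter, prod_const]
  rw [h1]
  have h3 : ∏ p ∈ Z, p ^ b.factorization p ∣ b := by
    have h4 : (∏ p ∈ Z, p ^ b.factorization p) ∣ ∏ p ∈ Z ∪ b.primeFactors, p ^ b.factorization p :=
      prod_dvd_prod_of_subset _ _ _ subset_union_left
    have h5 : ∏ p ∈ Z ∪ b.primeFactors, p ^ b.factorization p = b := by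
      conv_rhs => rw [← Nat.prod_factorization_pow_eq_self hb.ne']
      rw [Finsupp.prod, Nat.support_factorization]
      symm
      refine prod_subset subset_union_right fun p _ hp => ?_
      rw [← Nat.support_factorization, Finsupp.notMem_support_iff] at hp
      rw [hp, pow_zero]
    rwa [h5] at h4
  refine dvd_trans (prod_dvd_prod_of_dvd _ _ fun p hp => ?_) h3
  exact pow_dvd_pow p (hv p hp)

end Helper66.MF
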