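import Mathlib

namespace Helper66.MF

open Finset

private theorem Period_shift {f : ℕ → ℤ} {P : ℕ} (hf : ∀ m, f (m + P) = f m) (n : ℕ) :
    ∑ i ∈ range P, f (n + i) = ∑ i ∈ range P, f i := by
  induction n with
  | zero => simp
  | succ n ih =>
    have h1 := Finset.sum_range_succ (fun i => f (n + i)) P
    have h2 := Finset.sum_range_succ' (fun i => f (n + i)) P
    rw [h1, hf, add_zero] at h2
    have h3 : ∑ i ∈ range P, f (n + (i + 1)) = ∑ i ∈ range P, f (n + i) := by linarith
    rw [← ih, ← h3]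
    refine Finset.sum_congr rfl fun i _ => ?_
    congr 1
    ring

private theorem Period_bound {f : ℕ → ℤ} {P : ℕ} (hP : 0 < P) (hf : ∀ m, f (m + P) = f m)
    (h1 : ∀ m, |f m| ≤ 1) (h0 : ∑ i ∈ range P, f i = 0) (Q N : ℕ) :
    |∑ m ∈ Ioc Q N, f m| ≤ (P : ℤ) := by
  rcases lt_or_ge N Q with hNQ | hQN
  · rw [Finset.Ioc_eq_empty (by omega)]
    simp
  set S : ℕ → ℤ := fun n => ∑ i ∈ range n, f i with hS
  have hper : ∀ n, S (n + P) = S n := by
    intro n
    simp only [hS]
    rw [Finset.sum_range_add, Period_shift hf, h0, add_zero]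
  have hmod : ∀ n, S (n % P) = S n := fun n => Function.Periodic.map_mod_nat hper n
  have hle : ∀ a b : ℕ, a ≤ b → |S b - S a| ≤ ((b - a : ℕ) : ℤ) := by
    intro a b hab
    simp only [hS]
    rw [← Finset.sum_Ico_eq_sub _ hab]
    refine (Finset.abs_sum_le_sum_abs _ _).trans ?_
    refine (Finset.sum_le_sum fun i _ => h1 i).trans ?_
    simp
  have hbd : ∀ a b : ℕ, a < P → b < P → |S b - S a| ≤ (P : ℤ) := by
    intro a b ha hb
    rcases le_total a b with h | h
    · refine (hle a b h).trans ?_
      exact_mod_cast (Nat.sub_le b a).trans hb.le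
    · rw [abs_sub_comm]
      refine (hle b a h).trans ?_
      exact_mod_cast (Nat.sub_le a b).trans ha.le
  have hsum : ∑ m ∈ Ioc Q N, f m = S (N + 1) - S (Q + 1) := by
    simp only [hS]
    rw [← Finset.sum_Ico_eq_sub _ (by omega : Q + 1 ≤ N + 1)]
    refine Finset.sum_congr ?_ fun _ _ => rfl
    ext m
    simp only [Finset.mem_Ioc, Finset.mem_Ico]
    omega
  rw [hsum, ← hmod (N + 1), ← hmod (Q + 1)]
  exact hbd _ _ (Nat.mod_lt _ hP) (Nat.mod_lt _ hP)

private theorem Period_sum {p : ℕ} [Fact p.Prime] (hp : p ≠ 2) :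
    ∑ a : ZMod p, quadraticChar (ZMod p) (-a) = 0 := by
  have h := quadraticChar_sum_zero (F := ZMod p) (by rw [ZMod.ringChar_zmod_n]; exact hp)
  rw [← h]
  exact Fintype.sum_equiv (Equiv.neg (ZMod p)) _ _ (fun _ => rfl)

/-- Sums of the Jacobi type symbol `m ↦ (-m / p) (-m / p')` over an interval are at most `p p'`:
the function has period `p p'` and the sum over a period is zero (for a fixed residue class of
`m` modulo `p'` the sum over the class of `(-m / p)` over `p` consecutive terms is `0`). -/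
theorem interval_sum_le {p p' : ℕ} [Fact p.Prime] [Fact p'.Prime] (hp : p ≠ 2) (hp' : p' ≠ 2)
    (hne : p ≠ p') (Q N : ℕ) :
    |∑ m ∈ Ioc Q N, legendreSym p (-(m : ℤ)) * legendreSym p' (-(m : ℤ))| ≤ (p * p' : ℕ) := by
  have hpp : 0 < p := (Fact.out : p.Prime).pos
  have hpp' : 0 < p' := (Fact.out : p'.Prime).pos
  have hP : 0 < p * p' := Nat.mul_pos hpp hpp'
  have : NeZero (p * p') := ⟨hP.ne'⟩
  have hco : Nat.Coprime p p' :=
    (Nat.coprime_primes (Fact.out : p.Prime) (Fact.out : p'.Prime)).mpr hne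
  refine Period_bound (f := fun m => legendreSym p (-(m : ℤ)) * legendreSym p' (-(m : ℤ)))
    hP ?_ ?_ ?_ Q N
  · intro m
    simp only [legendreSym]
    congr 2 <;> simp
  · intro m
    have hq : ∀ (q : ℕ) [Fact q.Prime] (x : ZMod q), |quadraticChar (ZMod q) x| ≤ 1 := by
      intro q _ x
      by_cases hx : x = 0
      · rw [hx, quadraticChar_zero]; simp
      · rcases quadraticChar_dichotomy hx with h | h <;> rw [h] <;> simp
    simp only [legendreSym]
    rw [abs_mul]
    exact mul_le_one₀ (hq p _) (abs_nonneg _) (hq p' _)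
  · -- the sum over a period
    have h1 : ∑ i ∈ range (p * p'), legendreSym p (-(i : ℤ)) * legendreSym p' (-(i : ℤ)) =
        ∑ x : ZMod (p * p'),
          quadraticChar (ZMod p) (-(ZMod.chineseRemainder hco x).1) *
            quadraticChar (ZMod p') (-(ZMod.chineseRemainder hco x).2) := by
      refine Finset.sum_bij' (fun i _ => ((i : ℕ) : ZMod (p * p'))) (fun x _ => x.val)
        (fun _ _ => Finset.mem_univ _) (fun x _ => ?_) (fun i hi => ?_) (fun x _ => ?_)
        (fun i _ => ?_)
      · exact Finset.mem_range.mpr (ZMod.val_lt x)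
      · exact ZMod.val_cast_of_lt (Finset.mem_range.mp hi)
      · exact ZMod.natCast_zmod_val x
      · simp only [legendreSym, map_natCast, Prod.fst_natCast, Prod.snd_natCast, Int.cast_neg,
          Int.cast_natCast]
    rw [h1]
    have h2 : ∑ x : ZMod (p * p'),
          quadraticChar (ZMod p) (-(ZMod.chineseRemainder hco x).1) *
            quadraticChar (ZMod p') (-(ZMod.chineseRemainder hco x).2) =
        ∑ y : ZMod p × ZMod p', quadraticChar (ZMod p) (-y.1) * quadraticChar (ZMod p') (-y.2) :=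
      Fintype.sum_equiv (ZMod.chineseRemainder hco).toEquiv _ _ (fun _ => rfl)
    rw [h2, Fintype.sum_prod_type]
    simp only [← Finset.mul_sum]
    rw [Period_sum hp']
    simp

end Helper66.MF
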