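import Mathlib

namespace Helper66.MF

/-- Quadratic reciprocity for `q ≡ 3 (mod 4)` in the form `(p / q) = (-q / p)`. -/
theorem recip {p q : ℕ} [Fact p.Prime] [Fact q.Prime] (hp : p ≠ 2) (hq : q % 4 = 3)
    (hpq : p ≠ q) : IsSquare (p : ZMod q) ↔ legendreSym p (-(q : ℤ)) = 1 := by
  have hq2 : q ≠ 2 := by
    rintro rfl
    norm_num at hq
  have h1 : IsSquare (p : ZMod q) ↔ legendreSym q (p : ℤ) = 1 :=
    (legendreSym.eq_one_iff' q (ZMod.prime_ne_zero q p hpq.symm)).symm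
  have h2 : legendreSym p (-(q : ℤ)) = legendreSym p (-1) * legendreSym p (q : ℤ) := by
    rw [← legendreSym.mul, neg_one_mul]
  have hodd : p % 2 = 1 := (Nat.Prime.mod_two_eq_one_iff_ne_two Fact.out).mpr hp
  have h4 : p % 4 = 1 ∨ p % 4 = 3 := by omega
  rw [h1, h2, legendreSym.at_neg_one hp]
  rcases h4 with h4 | h4
  · rw [ZMod.χ₄_nat_one_mod_four h4, one_mul,
      legendreSym.quadratic_reciprocity_one_mod_four h4 hq2]
  · rw [ZMod.χ₄_nat_three_mod_four h4,
      legendreSym.quadratic_reciprocity_three_mod_four h4 hq, neg_mul, one_mul]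

end Helper66.MF
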