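import Pool.Agent.Helper66.MF.Defs
import Pool.Agent.Helper66.MF.Period
import Pool.Agent.Helper66.MF.Recip

namespace Helper66.MF

open Finset

/-- The symbol `(-m / p)` for a prime `p`, and `0` for other `p`. -/
private noncomputable def quadChi (p m : ℕ) : ℤ :=
  if h : p.Prime then (haveI := Fact.mk h; legendreSym p (-(m : ℤ))) else 0

private lemma quadChi_eq (p m : ℕ) [hp : Fact p.Prime] :
    quadChi p m = legendreSym p (-(m : ℤ)) := by
  unfold quadChi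
  rw [dif_pos hp.out]

private lemma quadChi_range (p m : ℕ) : quadChi p m = 0 ∨ quadChi p m = 1 ∨ quadChi p m = -1 := by
  unfold quadChi
  split_ifs with h
  · haveI := Fact.mk h
    by_cases h0 : ((-(m : ℤ) : ℤ) : ZMod p) = 0
    · left
      exact (legendreSym.eq_zero_iff p _).mpr h0
    · right
      exact legendreSym.eq_one_or_neg_one p h0
  · left; rfl

private lemma quadChi_sq_le (p m : ℕ) : quadChi p m * quadChi p m ≤ 1 := by
  rcases quadChi_range p m with h | h | h <;> rw [h] <;> norm_num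

/-- The sum over the moduli. -/
private lemma quad_lower (n Q p : ℕ) (B : Finset ℕ) (hp : p.Prime) (hp2 : p ≠ 2) (hpn : p ≤ n)
    (hB : ∀ q ∈ B, q.Prime ∧ q % 4 = 3 ∧ Q < q ∧ q ≤ 2 * Q) (hn : n ≤ Q)
    (hEx : 4 * #(nonmod p B) ≤ #B) : (#B : ℤ) ≤ 2 * ∑ q ∈ B, quadChi p q := by
  classical
  haveI := Fact.mk hp
  have hval : ∀ q ∈ B, quadChi p q = if ¬ IsSquare (p : ZMod q) then -1 else 1 := by
    intro q hq
    obtain ⟨hqp, hq4, hQq, -⟩ := hB q hq
    haveI := Fact.mk hqp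
    have hpq : p ≠ q := by omega
    have hr := recip (p := p) (q := q) hp2 hq4 hpq
    have hne : ((-(q : ℤ) : ℤ) : ZMod p) ≠ 0 := by
      push_cast
      rw [neg_ne_zero]
      exact ZMod.prime_ne_zero p q hpq
    rw [quadChi_eq]
    by_cases hs : IsSquare (p : ZMod q)
    · rw [if_neg (not_not.mpr hs)]
      exact hr.mp hs
    · rw [if_pos hs]
      rcases legendreSym.eq_one_or_neg_one p hne with h | h
      · exact absurd (hr.mpr h) hs
      · exact h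
  rw [Finset.sum_congr rfl hval, Finset.sum_ite, Finset.sum_const, Finset.sum_const]
  have hsplit : #(B.filter (fun q => ¬ IsSquare (p : ZMod q)))
      + #(B.filter (fun q => ¬ ¬ IsSquare (p : ZMod q))) = #B :=
    Finset.card_filter_add_card_filter_not _
  have hnm : nonmod p B = B.filter (fun q => ¬ IsSquare (p : ZMod q)) := by
    unfold nonmod
    apply Finset.filter_congr_decidable
  rw [hnm] at hEx
  simp only [nsmul_eq_mul, mul_neg, mul_one]
  push_cast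
  omega

/-- The quadratic sieve bound. Let `χ p m = (-m / p)` (for a prime `p ≠ 2`; use
`fun p m => if h : p.Prime then (haveI := Fact.mk h; legendreSym p (-(m : ℤ))) else 0`). For
`p ∈ E` we have `∑ q ∈ B, χ p q ≥ #B / 2` by `recip`. So `#E * #B / 2 ≤ ∑ q ∈ B, ∑ p ∈ E, χ p q`,
and by Cauchy–Schwarz `(#E * #B / 2) ^ 2 ≤ #B * ∑ m ∈ Ioc Q (2 * Q), (∑ p ∈ E, χ p m) ^ 2`.
Expanding the square, the terms `p = p'` give at most `#E * Q` and the others at most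
`#E ^ 2 * n ^ 2` (`interval_sum_le`). -/
theorem quad_sieve (n Q : ℕ) (E B : Finset ℕ) (hE : ∀ p ∈ E, p.Prime ∧ p ≠ 2 ∧ p ≤ n)
    (hB : ∀ q ∈ B, q.Prime ∧ q % 4 = 3 ∧ Q < q ∧ q ≤ 2 * Q) (hn : n ≤ Q)
    (hEx : ∀ p ∈ E, 4 * #(nonmod p B) ≤ #B) :
    (#E : ℝ) * #B ≤ 4 * Q + 4 * #E * (n : ℝ) ^ 2 := by
  classical
  -- lower bound
  have h1 : (#E : ℤ) * #B ≤ 2 * ∑ q ∈ B, ∑ p ∈ E, quadChi p q := by
    rw [Finset.sum_comm, Finset.mul_sum, ← nsmul_eq_mul]
    apply Finset.card_nsmul_le_sum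
    intro p hp
    exact quad_lower n Q p B (hE p hp).1 (hE p hp).2.1 (hE p hp).2.2 hB hn (hEx p hp)
  -- Cauchy-Schwarz
  have h2 : (∑ q ∈ B, ∑ p ∈ E, quadChi p q) ^ 2
      ≤ #B * ∑ q ∈ B, (∑ p ∈ E, quadChi p q) ^ 2 := by
    have := sq_sum_le_card_mul_sum_sq (s := B) (f := fun q => ∑ p ∈ E, quadChi p q)
    exact_mod_cast this
  have hsub : B ⊆ Ioc Q (2 * Q) := by
    intro q hq
    exact Finset.mem_Ioc.mpr ⟨(hB q hq).2.2.1, (hB q hq).2.2.2⟩
  have h3 : ∑ q ∈ B, (∑ p ∈ E, quadChi p q) ^ 2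
      ≤ ∑ m ∈ Ioc Q (2 * Q), (∑ p ∈ E, quadChi p m) ^ 2 :=
    Finset.sum_le_sum_of_subset_of_nonneg hsub (fun _ _ _ => sq_nonneg _)
  -- expansion
  have h4 : ∑ m ∈ Ioc Q (2 * Q), (∑ p ∈ E, quadChi p m) ^ 2
      = ∑ p ∈ E, ∑ p' ∈ E, ∑ m ∈ Ioc Q (2 * Q), quadChi p m * quadChi p' m := by
    have : ∀ m, (∑ p ∈ E, quadChi p m) ^ 2 = ∑ p ∈ E, ∑ p' ∈ E, quadChi p m * quadChi p' m := by
      intro m
      rw [sq, Finset.sum_mul_sum]
    simp_rw [this]
    rw [Finset.sum_comm]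
    apply Finset.sum_congr rfl
    intro p _
    rw [Finset.sum_comm]
  have h5 : ∀ p ∈ E, ∑ p' ∈ E, ∑ m ∈ Ioc Q (2 * Q), quadChi p m * quadChi p' m
      ≤ (Q : ℤ) + #E * (n : ℤ) ^ 2 := by
    intro p hp
    have hterm : ∀ p' ∈ E, ∑ m ∈ Ioc Q (2 * Q), quadChi p m * quadChi p' m
        ≤ (if p' = p then (Q : ℤ) else 0) + (n : ℤ) ^ 2 := by
      intro p' hp'
      by_cases hpp : p' = p
      · rw [if_pos hpp, hpp]
        have : ∑ m ∈ Ioc Q (2 * Q), quadChi p m * quadChi p m ≤ ∑ m ∈ Ioc Q (2 * Q), (1 : ℤ) :=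
          Finset.sum_le_sum (fun m _ => quadChi_sq_le p m)
        have hc : ∑ m ∈ Ioc Q (2 * Q), (1 : ℤ) = Q := by
          rw [Finset.sum_const, Nat.card_Ioc]
          simp only [nsmul_eq_mul, mul_one]
          have : 2 * Q - Q = Q := by omega
          rw [this]
        nlinarith [sq_nonneg (n : ℤ)]
      · rw [if_neg hpp, zero_add]
        haveI := Fact.mk (hE p hp).1
        haveI := Fact.mk (hE p' hp').1
        have hi := interval_sum_le (p := p) (p' := p') (hE p hp).2.1 (hE p' hp').2.1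
          (fun h => hpp h.symm) Q (2 * Q)
        have hle := (le_abs_self _).trans hi
        have heq : ∑ m ∈ Ioc Q (2 * Q), quadChi p m * quadChi p' m
            = ∑ m ∈ Ioc Q (2 * Q), legendreSym p (-(m : ℤ)) * legendreSym p' (-(m : ℤ)) := by
          apply Finset.sum_congr rfl
          intro m _
          rw [quadChi_eq, quadChi_eq]
        rw [heq]
        refine hle.trans ?_
        have : p * p' ≤ n * n := Nat.mul_le_mul (hE p hp).2.2 (hE p' hp').2.2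
        calc ((p * p' : ℕ) : ℤ) ≤ ((n * n : ℕ) : ℤ) := by exact_mod_cast this
          _ = (n : ℤ) ^ 2 := by push_cast; ring
    refine (Finset.sum_le_sum hterm).trans ?_
    rw [Finset.sum_add_distrib, Finset.sum_ite_eq' E p (fun _ => (Q : ℤ)), if_pos hp,
      Finset.sum_const, nsmul_eq_mul]
  have h6 : ∑ m ∈ Ioc Q (2 * Q), (∑ p ∈ E, quadChi p m) ^ 2
      ≤ #E * ((Q : ℤ) + #E * (n : ℤ) ^ 2) := by
    rw [h4]
    refine (Finset.sum_le_sum h5).trans ?_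
    rw [Finset.sum_const, nsmul_eq_mul]
  have h7 : ((#E : ℤ) * #B) ^ 2 ≤ 4 * (#B * (#E * ((Q : ℤ) + #E * (n : ℤ) ^ 2))) := by
    have h0 : (0 : ℤ) ≤ (#E : ℤ) * #B := by positivity
    have hB0 : (0 : ℤ) ≤ #B := by positivity
    calc ((#E : ℤ) * #B) ^ 2 ≤ (2 * ∑ q ∈ B, ∑ p ∈ E, quadChi p q) ^ 2 := by
          apply pow_le_pow_left₀ h0 h1
      _ = 4 * (∑ q ∈ B, ∑ p ∈ E, quadChi p q) ^ 2 := by ring
      _ ≤ 4 * (#B * (#E * ((Q : ℤ) + #E * (n : ℤ) ^ 2))) := by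
          have := mul_le_mul_of_nonneg_left (h3.trans h6) hB0
          linarith
  have h8 : ((#E : ℝ) * #B) ^ 2 ≤ 4 * (#B * (#E * ((Q : ℝ) + #E * (n : ℝ) ^ 2))) := by
    exact_mod_cast h7
  rcases Nat.eq_zero_or_pos #E with hE0 | hE0
  · rw [hE0]
    push_cast
    nlinarith [Nat.cast_nonneg (α := ℝ) Q]
  rcases Nat.eq_zero_or_pos #B with hB0 | hB0
  · rw [hB0]
    push_cast
    have : (0 : ℝ) ≤ 4 * Q + 4 * #E * (n : ℝ) ^ 2 := by positivity
    linarith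
  have hE1 : (0 : ℝ) < #E := by exact_mod_cast hE0
  have hB1 : (0 : ℝ) < #B := by exact_mod_cast hB0
  have hEB : (0 : ℝ) < (#E : ℝ) * #B := mul_pos hE1 hB1
  have h9 : ((#E : ℝ) * #B) * ((#E : ℝ) * #B) ≤ ((#E : ℝ) * #B) * (4 * Q + 4 * #E * (n : ℝ) ^ 2) := by
    nlinarith [h8]
  exact le_of_mul_le_mul_left h9 hEB

/-- There are at most `1 + 8 Q / #B` exceptional primes up to `n` (the `1` is for the prime `2`):
`quad_sieve` for `E = (exc B S).erase 2`. -/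
theorem exc_le (n Q : ℕ) (S B : Finset ℕ) (hS : ∀ p ∈ S, p.Prime ∧ p ≤ n)
    (hB : ∀ q ∈ B, q.Prime ∧ q % 4 = 3 ∧ Q < q ∧ q ≤ 2 * Q) (hn : n ≤ Q)
    (hBn : 8 * n ^ 2 ≤ #B) (hB0 : 0 < #B) :
    (#(exc B S) : ℝ) ≤ 1 + 8 * Q / #B := by
  classical
  have hmem : ∀ p ∈ (exc B S).erase 2, p.Prime ∧ p ≠ 2 ∧ p ≤ n := by
    intro p hp
    rw [Finset.mem_erase] at hp
    have hpS : p ∈ S := (Finset.mem_filter.mp hp.2).1
    exact ⟨(hS p hpS).1, hp.1, (hS p hpS).2⟩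
  have hex : ∀ p ∈ (exc B S).erase 2, 4 * #(nonmod p B) ≤ #B := by
    intro p hp
    rw [Finset.mem_erase] at hp
    exact (Finset.mem_filter.mp hp.2).2
  have hq := quad_sieve n Q ((exc B S).erase 2) B hmem hB hn hex
  have hB1 : (0 : ℝ) < #B := by exact_mod_cast hB0
  have hBn' : 8 * (n : ℝ) ^ 2 ≤ #B := by exact_mod_cast hBn
  have hE0 : (0 : ℝ) ≤ #((exc B S).erase 2) := by positivity
  have h1 : (#((exc B S).erase 2) : ℝ) * #B ≤ 8 * Q := by
    nlinarith [mul_le_mul_of_nonneg_left hBn' hE0]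
  have h2 : (#((exc B S).erase 2) : ℝ) ≤ 8 * Q / #B := by
    rw [le_div_iff₀ hB1]
    exact h1
  have h3 : #(exc B S) ≤ #((exc B S).erase 2) + 1 := by
    have := Finset.pred_card_le_card_erase (s := exc B S) (a := 2)
    omega
  have h4 : (#(exc B S) : ℝ) ≤ #((exc B S).erase 2) + 1 := by exact_mod_cast h3
  linarith

end Helper66.MF
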