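import Pool.Agent.Helper66.MF.Coll

namespace Helper66.MF

open Finset

/-- Pigeonhole over `L` disjoint blocks: the larger sieve `sum_inv_cnt_le` for the union of the
blocks `B j`, `j < L`, summed over `i < J`, gives total at most `J (g + 1)`. -/
theorem exists_block {n g J L : ℕ} (hL : 0 < L) (S : ℕ → Finset ℕ)
    (hS : ∀ i < J, #(S i) = g ∧ ∀ p ∈ S i, p.Prime ∧ p ≤ n) (B : ℕ → Finset ℕ)
    (hB : ∀ j < L, ∀ q ∈ B j, q.Prime ∧ n < q)
    (hdisj : ∀ j < L, ∀ k < L, j ≠ k → Disjoint (B j) (B k))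
    (hcard : ∑ j ∈ range L, #(B j) ≤ 2 ^ g) :
    ∃ j < L, (∑ i ∈ range J, ∑ q ∈ B j, (1 : ℝ) / cnt q (S i)) ≤ J * (g + 1) / L := by
  classical
  set U : Finset ℕ := (range L).biUnion B with hU
  have hdisj' : Set.PairwiseDisjoint ((range L : Finset ℕ) : Set ℕ) B := by
    intro j hj k hk hjk
    exact hdisj j (mem_range.1 (mem_coe.1 hj)) k (mem_range.1 (mem_coe.1 hk)) hjk
  have hUcard : #U ≤ 2 ^ g := by
    rw [hU, card_biUnion (fun j hj k hk hjk => hdisj j (mem_range.1 hj) k (mem_range.1 hk) hjk)]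
    exact hcard
  have hUp : ∀ q ∈ U, q.Prime ∧ n < q := by
    intro q hq
    rw [hU, mem_biUnion] at hq
    obtain ⟨j, hj, hqj⟩ := hq
    exact hB j (mem_range.1 hj) q hqj
  have h1 : ∀ i ∈ range J, ∑ q ∈ U, (1 : ℝ) / cnt q (S i) ≤ (g : ℝ) + 1 := by
    intro i hi
    obtain ⟨h2, h3⟩ := hS i (mem_range.1 hi)
    have h4 := sum_inv_cnt_le n (S i) h3 U hUp
    rw [h2] at h4
    have h5 : (#U : ℝ) / 2 ^ g ≤ 1 := by
      rw [div_le_one (by positivity)]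
      exact_mod_cast hUcard
    linarith
  have h6 : ∑ j ∈ range L, ∑ i ∈ range J, ∑ q ∈ B j, (1 : ℝ) / cnt q (S i) ≤
      ∑ _j ∈ range L, (J * (g + 1) / L : ℝ) := by
    rw [sum_comm]
    have h7 : ∀ i ∈ range J, ∑ j ∈ range L, ∑ q ∈ B j, (1 : ℝ) / cnt q (S i) =
        ∑ q ∈ U, (1 : ℝ) / cnt q (S i) := by
      intro i _
      rw [hU, sum_biUnion hdisj']
    rw [sum_congr rfl h7]
    refine (sum_le_sum h1).trans ?_
    rw [sum_const, sum_const, card_range, card_range, nsmul_eq_mul, nsmul_eq_mul]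
    have hL' : (L : ℝ) ≠ 0 := by exact_mod_cast hL.ne'
    rw [mul_div_cancel₀ _ hL']
  obtain ⟨j, hj, hj2⟩ := exists_le_of_sum_le (nonempty_range_iff.2 hL.ne') h6
  exact ⟨j, mem_range.1 hj, hj2⟩

end Helper66.MF
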