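import Pool.Agent.Helper66.MF.Block
import Pool.Agent.Helper66.MF.Quad
import Pool.Agent.Helper66.MF.Blocks
import Pool.Agent.Helper66.MF.Scale

namespace Helper66.MF

open Finset

/-- The blocks of moduli. -/
private def Groups_B (A n j : ℕ) : Finset ℕ :=
  {q ∈ Ioc (2 ^ j * n ^ 3) (2 * (2 ^ j * n ^ 3)) | q.Prime ∧ A ∣ q + 1}

private lemma Groups_mem {A n j q : ℕ} (h : q ∈ Groups_B A n j) :
    q.Prime ∧ A ∣ q + 1 ∧ 2 ^ j * n ^ 3 < q ∧ q ≤ 2 * (2 ^ j * n ^ 3) := by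
  rw [Groups_B, mem_filter, mem_Ioc] at h
  exact ⟨h.2.1, h.2.2, h.1.1, h.1.2⟩

private lemma Groups_disj {A n : ℕ} {j k : ℕ} (h : j ≠ k) :
    Disjoint (Groups_B A n j) (Groups_B A n k) := by
  wlog hjk : j < k generalizing j k
  · exact (this (Ne.symm h) (by omega)).symm
  rw [disjoint_left]
  intro q hq hq'
  have h1 := (Groups_mem hq).2.2.2
  have h2 := (Groups_mem hq').2.2.1
  have h3 : 2 ^ (j + 1) ≤ 2 ^ k := Nat.pow_le_pow_right (by norm_num) hjk
  have h4 : 2 ^ (j + 1) * n ^ 3 ≤ 2 ^ k * n ^ 3 := Nat.mul_le_mul_right _ h3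
  rw [pow_succ] at h4
  have h5 : 2 * (2 ^ j * n ^ 3) = 2 ^ j * 2 * n ^ 3 := by ring
  omega

private lemma Groups_card_le (A n j : ℕ) : #(Groups_B A n j) ≤ 2 ^ j * n ^ 3 := by
  refine (card_filter_le _ _).trans ?_
  rw [Nat.card_Ioc]
  omega

private lemma Groups_sum_card (A n L : ℕ) : ∑ j ∈ range L, #(Groups_B A n j) ≤ 2 ^ L * n ^ 3 := by
  induction L with
  | zero => simp
  | succ L ih =>
    rw [sum_range_succ, pow_succ]
    have := Groups_card_le A n L
    nlinarith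

/-- The main theorem for groups of primes. Choice of constants: let `c, Q0` be as in
`exists_blocks` for `A = 8 a`. `L = Nat.log 2 n`, blocks `B j = {q ∈ Ioc (Q j) (2 Q j) | q prime,
8 a ∣ q + 1}` with `Q j = 2 ^ j * n ^ 3`, so `n ^ 3 ≤ Q j`, `2 Q j ≤ n ^ 4`. We have
`#(B j) ≥ c Q j / log (Q j) ≥ c Q j / (4 log n)`, so `Q j / #(B j) ≤ 4 log n / c`, and
`8 n ^ 2 ≤ #(B j)` for large `n`. The union of the blocks has at most `n ^ 4 ≤ 2 ^ g` elements if
`g ≥ 6 log n`. `exc_le`: the exceptional sets have at most `1 + 32 log n / c ≤ g / 2` elements.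
`exists_block` gives `j` with sum at most `J (g + 1) / L ≤ J κ`, `κ` a constant depending on `C1`
(`L ≥ log n / 2`, `g + 1 ≤ (C1 + 2) log n`). Take `T = ⌈1024 Q / J⌉ ≤ 2048 Q / J` (as
`J ≤ 1024 Q`); `32 T J κ ≤ J #(B j)` if `J ≥ 65536 κ * 4 log n / c`. Apply `block` with this `j`
(`8 a ∣ q + 1` gives `a ∣ q + 1` and `q % 4 = 3`). -/
theorem groups (a : ℕ) (ha : 0 < a) : ∃ C1 C2 : ℝ, 1 ≤ C1 ∧ 2 ≤ C2 ∧ ∃ n0 : ℕ, 2 ≤ n0 ∧
    ∀ n : ℕ, n0 ≤ n → ∀ b : ℕ, 0 < b → ∀ S : ℕ → Finset ℕ,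
    (∀ i < ⌈C2 * Real.log n⌉₊, #(S i) = ⌈C1 * Real.log n⌉₊ ∧ ∀ p ∈ S i, p.Prime ∧ p ≤ n) →
    (∏ i ∈ range ⌈C2 * Real.log n⌉₊, ∏ p ∈ S i, p ∣ b) → Rep3 a b := by
  obtain ⟨c, hc, Q0, hQ0, hblocks⟩ := exists_blocks (8 * a) (by omega)
  set C1 : ℝ := 8 + 64 / c with hC1
  set κ : ℝ := 2 * (C1 + 2) with hκ
  set C2 : ℝ := 2 + 262144 * κ / c with hC2
  have hC1pos : 8 ≤ C1 := by rw [hC1]; have := div_pos (by norm_num : (0:ℝ) < 64) hc; linarith
  have hκpos : 0 < κ := by rw [hκ]; linarith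
  have hC2pos : 2 ≤ C2 := by rw [hC2]; have := div_pos (mul_pos (by norm_num : (0:ℝ) < 262144) hκpos) hc; linarith
  set M : ℝ := 64 / c + 2 * C2 + 3 with hM
  have h64 : 0 < 64 / c := div_pos (by norm_num) hc
  refine ⟨C1, C2, by linarith, hC2pos, max (max 8 Q0) ⌈M ^ 2⌉₊, by omega, ?_⟩
  intro n hn b hb S hS hSb
  have hn8 : 8 ≤ n := le_trans (le_trans (le_max_left _ _) (le_max_left _ _)) hn
  have hnQ0 : Q0 ≤ n := le_trans (le_trans (le_max_right _ _) (le_max_left _ _)) hn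
  have hnM : M ^ 2 ≤ n := (Nat.le_ceil _).trans (by exact_mod_cast le_trans (le_max_right _ _) hn)
  have hnR : (8 : ℝ) ≤ n := by exact_mod_cast hn8
  have hn0 : (0 : ℝ) < n := by linarith
  set l : ℝ := Real.log n with hl
  have hsq : M ≤ √(n : ℝ) := Real.le_sqrt_of_sq_le hnM
  have hsq2 : √(n : ℝ) * √(n : ℝ) = n := Real.mul_self_sqrt hn0.le
  have hsq1 : 1 ≤ √(n : ℝ) := by
    have : (1:ℝ) ≤ M := by rw [hM]; linarith
    linarith
  have hlsq : l ≤ 2 * √(n : ℝ) := by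
    have h1 : l = 2 * Real.log (√(n : ℝ)) := by
      rw [hl, Real.log_sqrt hn0.le]; ring
    have h2 := Real.log_le_sub_one_of_pos (show 0 < √(n : ℝ) by linarith)
    rw [h1]; linarith
  have hlog2 : Real.log 2 < 0.7 := by
    have := Real.log_two_lt_d9; norm_num at this ⊢; linarith
  have hlog2' : 0.69 < Real.log 2 := by
    have := Real.log_two_gt_d9; norm_num at this ⊢; linarith
  have hl2 : 2 ≤ l := by
    have h1 : Real.log 8 ≤ l := Real.log_le_log (by norm_num) hnR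
    have h2 : Real.log 8 = 3 * Real.log 2 := by
      rw [show (8:ℝ) = 2 ^ 3 by norm_num, Real.log_pow]; norm_num
    rw [h2] at h1
    linarith
  set J : ℕ := ⌈C2 * l⌉₊ with hJ
  set g : ℕ := ⌈C1 * l⌉₊ with hg
  have hJ1 : C2 * l ≤ J := Nat.le_ceil _
  have hg1 : C1 * l ≤ g := Nat.le_ceil _
  have hJ2 : (J : ℝ) ≤ C2 * l + 1 := (Nat.ceil_lt_add_one (by positivity)).le
  have hg2 : (g : ℝ) ≤ C1 * l + 1 := (Nat.ceil_lt_add_one (by positivity)).le
  have hJ0 : 0 < J := by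
    have : (0:ℝ) < J := lt_of_lt_of_le (by positivity) hJ1
    exact_mod_cast this
  have hg0 : 0 < g := by
    have : (0:ℝ) < g := lt_of_lt_of_le (by positivity) hg1
    exact_mod_cast this
  -- the number of blocks
  set L : ℕ := Nat.log 2 n with hLdef
  have hL1 : 2 ^ L ≤ n := Nat.pow_log_le_self 2 (by omega)
  have hL2 : l / 2 ≤ L := by
    have h1 : n < 2 ^ (L + 1) := Nat.lt_pow_succ_log_self (by norm_num) n
    have h2 : (n : ℝ) < 2 ^ (L + 1) := by exact_mod_cast h1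
    have h3 := Real.log_lt_log hn0 h2
    rw [Real.log_pow] at h3
    push_cast at h3
    have h4 : l < ((L : ℝ) + 1) * 0.7 := by
      refine h3.trans_le ?_
      apply mul_le_mul_of_nonneg_left hlog2.le
      positivity
    linarith
  have hL0 : 0 < L := by
    have : (0:ℝ) < L := by linarith
    exact_mod_cast this
  -- sizes
  have hQge : ∀ j, n ^ 3 ≤ 2 ^ j * n ^ 3 := fun j => Nat.le_mul_of_pos_left _ (by positivity)
  have hn1 : n ≤ n ^ 3 := Nat.le_self_pow (by norm_num) n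
  have hQle : ∀ j < L, 2 * (2 ^ j * n ^ 3) ≤ n ^ 4 := by
    intro j hj
    have h1 : 2 ^ (j + 1) ≤ 2 ^ L := Nat.pow_le_pow_right (by norm_num) hj
    have h2 : 2 ^ (j + 1) ≤ n := h1.trans hL1
    calc 2 * (2 ^ j * n ^ 3) = 2 ^ (j + 1) * n ^ 3 := by ring
      _ ≤ n * n ^ 3 := Nat.mul_le_mul_right _ h2
      _ = n ^ 4 := by ring
  have hcardB : ∀ j < L, c * (2 ^ j * n ^ 3 : ℕ) ≤ 4 * l * #(Groups_B (8 * a) n j) := by
    intro j hj
    have h1 := hblocks (2 ^ j * n ^ 3) ((hnQ0.trans hn1).trans (hQge j))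
    have h2 : Real.log ((2 ^ j * n ^ 3 : ℕ) : ℝ) ≤ 4 * l := by
      have h3 : ((2 ^ j * n ^ 3 : ℕ) : ℝ) ≤ (n : ℝ) ^ 4 := by
        have := hQle j hj
        exact_mod_cast (by omega : 2 ^ j * n ^ 3 ≤ n ^ 4)
      have h4 : (0 : ℝ) < ((2 ^ j * n ^ 3 : ℕ) : ℝ) := by
        have : 0 < 2 ^ j * n ^ 3 := by positivity
        exact_mod_cast this
      have h5 := Real.log_le_log h4 h3
      rw [Real.log_pow] at h5
      push_cast at h5 ⊢
      exact h5
    have h4 : 0 < Real.log ((2 ^ j * n ^ 3 : ℕ) : ℝ) := by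
      apply Real.log_pos
      have : 1 < 2 ^ j * n ^ 3 := by
        have := hQge j
        have : 8 ≤ n ^ 3 := hn8.trans hn1
        omega
      exact_mod_cast this
    rw [div_le_iff₀ h4] at h1
    refine h1.trans ?_
    rw [mul_comm]
    have h6 : (0:ℝ) ≤ (#(Groups_B (8 * a) n j) : ℝ) := by positivity
    exact mul_le_mul_of_nonneg_right h2 h6
  have hcard2 : ∑ j ∈ range L, #(Groups_B (8 * a) n j) ≤ 2 ^ g := by
    refine (Groups_sum_card (8 * a) n L).trans ?_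
    refine (Nat.mul_le_mul_right _ hL1).trans ?_
    have h1 : ((n * n ^ 3 : ℕ) : ℝ) ≤ ((2 ^ g : ℕ) : ℝ) := by
      push_cast
      have h2 : (n : ℝ) * (n : ℝ) ^ 3 = Real.exp (4 * l) := by
        rw [show (4 : ℝ) * l = ((4 : ℕ) : ℝ) * l by norm_num, Real.exp_nat_mul, hl, Real.exp_log hn0]
        ring
      have h3 : (2 : ℝ) ^ g = Real.exp (g * Real.log 2) := by
        rw [Real.exp_nat_mul, Real.exp_log (by norm_num)]
      rw [h2, h3]
      apply Real.exp_le_exp.mpr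
      have h4 : 8 * l ≤ g := le_trans (mul_le_mul_of_nonneg_right hC1pos (by linarith)) hg1
      nlinarith
    exact_mod_cast h1
  -- choose the block
  obtain ⟨j, hjL, hX⟩ := exists_block (n := n) (g := g) (J := J) hL0 S hS (Groups_B (8 * a) n)
    (fun j hj q hq => ⟨(Groups_mem hq).1, by
      have := (Groups_mem hq).2.2.1
      have := hQge j
      omega⟩)
    (fun j _ k _ hjk => Groups_disj hjk) hcard2
  set Q : ℕ := 2 ^ j * n ^ 3 with hQ
  set B : Finset ℕ := Groups_B (8 * a) n j with hB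
  have hQn : n ^ 3 ≤ Q := hQge j
  have hQpos : 0 < Q := by have : 8 ≤ n ^ 3 := hn8.trans hn1; omega
  have hQR : (0:ℝ) < Q := by exact_mod_cast hQpos
  have hcB : c * (Q : ℝ) ≤ 4 * l * #B := hcardB j hjL
  have hl0 : 0 < l := by linarith
  have hBpos : (0:ℝ) < #B := by
    by_contra h
    have h1 : (#B : ℝ) ≤ 0 := not_lt.mp h
    have h2 : 4 * l * (#B : ℝ) ≤ 0 := mul_nonpos_of_nonneg_of_nonpos (by positivity) h1
    have h3 : 0 < c * (Q : ℝ) := mul_pos hc hQR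
    linarith
  have hBpos' : 0 < #B := by exact_mod_cast hBpos
  have h8n : 8 * n ^ 2 ≤ #B := by
    have h1 : (8 : ℝ) * (n : ℝ) ^ 2 ≤ #B := by
      have h2 : (n : ℝ) ^ 3 ≤ Q := by exact_mod_cast hQn
      have h3 : c * (n : ℝ) ^ 3 ≤ 4 * l * #B := le_trans (mul_le_mul_of_nonneg_left h2 hc.le) hcB
      have h4 : 64 ≤ c * √(n : ℝ) := by
        have h5 : 64 / c ≤ √(n : ℝ) := by
          have : 64 / c ≤ M := by rw [hM]; linarith
          linarith
        rw [div_le_iff₀ hc] at h5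
        linarith
      -- 32 l n^2 ≤ 64 √n n^2 ≤ c n^3 ≤ 4 l #B
      have h6 : 32 * l * (n : ℝ) ^ 2 ≤ c * (n : ℝ) ^ 3 := by
        have h7 : 32 * l ≤ c * n := by
          calc 32 * l ≤ 64 * √(n : ℝ) := by linarith
            _ ≤ (c * √(n : ℝ)) * √(n : ℝ) := mul_le_mul_of_nonneg_right h4 (by linarith)
            _ = c * n := by rw [mul_assoc, hsq2]
        calc 32 * l * (n : ℝ) ^ 2 ≤ c * n * (n : ℝ) ^ 2 :=
              mul_le_mul_of_nonneg_right h7 (by positivity)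
          _ = c * (n : ℝ) ^ 3 := by ring
      have h8 : 4 * l * (8 * (n : ℝ) ^ 2) ≤ 4 * l * #B := by
        calc 4 * l * (8 * (n : ℝ) ^ 2) = 32 * l * (n : ℝ) ^ 2 := by ring
          _ ≤ _ := h6.trans h3
      exact le_of_mul_le_mul_left h8 (by positivity)
    exact_mod_cast h1
  have hQB : (Q : ℝ) / #B ≤ 4 * l / c := by
    rw [div_le_div_iff₀ hBpos hc]
    linarith
  have hdvd : ∀ q ∈ B, a ∣ q + 1 ∧ q % 4 = 3 := by
    intro q hq
    have h1 := (Groups_mem hq).2.1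
    refine ⟨(Dvd.intro_left _ rfl).trans h1, ?_⟩
    have h2 : 4 ∣ q + 1 := (Dvd.dvd.mul_right (by norm_num : 4 ∣ 8) a).trans h1
    omega
  -- the parameter `T`
  set T : ℕ := 1024 * Q / J + 1 with hTdef
  have hT1 : 1024 * Q ≤ J * T := by
    have := Nat.lt_mul_div_succ (1024 * Q) hJ0
    rw [hTdef]
    exact this.le
  have hT2 : (T : ℝ) ≤ 1024 * Q / J + 1 := by
    rw [hTdef]
    push_cast
    have := @Nat.cast_div_le ℝ _ _ _ (1024 * Q) J
    push_cast at this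
    linarith
  have hJR : (0:ℝ) < J := by exact_mod_cast hJ0
  have hJQ : (J : ℝ) ≤ 1024 * Q := by
    have h1 : (J : ℝ) ≤ n := by
      have h2 : 2 * C2 + 1 ≤ √(n : ℝ) := by
        have : 2 * C2 + 1 ≤ M := by rw [hM]; linarith
        linarith
      calc (J : ℝ) ≤ C2 * l + 1 := hJ2
        _ ≤ C2 * (2 * √(n : ℝ)) + 1 := by
            have := mul_le_mul_of_nonneg_left hlsq (by linarith : (0:ℝ) ≤ C2)
            linarith
        _ ≤ (2 * C2 + 1) * √(n : ℝ) := by nlinarith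
        _ ≤ √(n : ℝ) * √(n : ℝ) := mul_le_mul_of_nonneg_right h2 (by linarith)
        _ = n := hsq2
    have h2 : (n : ℝ) ≤ Q := by exact_mod_cast hn1.trans hQn
    linarith
  have hX2 : (∑ i ∈ range J, ∑ q ∈ B, (1 : ℝ) / cnt q (S i)) ≤ J * κ := by
    refine hX.trans ?_
    rw [mul_div_assoc]
    apply mul_le_mul_of_nonneg_left _ hJR.le
    have hLR : (0:ℝ) < L := by exact_mod_cast hL0
    rw [div_le_iff₀ hLR]
    have h1 : (g : ℝ) + 1 ≤ (C1 + 2) * l := by nlinarith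
    have h2 : (C1 + 2) * l = κ * (l / 2) := by rw [hκ]; ring
    calc (g : ℝ) + 1 ≤ κ * (l / 2) := by rw [← h2]; exact h1
      _ ≤ κ * L := mul_le_mul_of_nonneg_left hL2 hκpos.le
  have hX0 : (0:ℝ) ≤ ∑ i ∈ range J, ∑ q ∈ B, (1 : ℝ) / cnt q (S i) :=
    sum_nonneg fun i _ => sum_nonneg fun q _ => by positivity
  refine block (n := n) (Q := Q) (J := J) (g := g) (T := T) hb hJ0 hg0 S B hS hSb ?_
    (card_pos.mp hBpos') (hn1.trans hQn) hT1 ?_ ?_
  · intro q hq
    exact ⟨(Groups_mem hq).1, (hdvd q hq).1, (Groups_mem hq).2.2.1, (Groups_mem hq).2.2.2⟩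
  · have hT0 : (0:ℝ) ≤ T := by positivity
    calc 32 * (T : ℝ) * (∑ i ∈ range J, ∑ q ∈ B, (1 : ℝ) / cnt q (S i))
        ≤ 32 * T * (J * κ) := mul_le_mul_of_nonneg_left hX2 (by positivity)
      _ ≤ 32 * (1024 * Q / J + 1) * (J * κ) := by
          apply mul_le_mul_of_nonneg_right _ (by positivity)
          linarith
      _ = 32 * κ * (1024 * Q + J) := by field_simp
      _ ≤ 32 * κ * (2048 * Q) := by
          apply mul_le_mul_of_nonneg_left _ (by positivity)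
          linarith
      _ = 65536 * κ * Q := by ring
      _ ≤ 65536 * κ * (4 * l / c * #B) := by
          apply mul_le_mul_of_nonneg_left _ (by positivity)
          rw [div_le_iff₀ hBpos] at hQB
          exact hQB
      _ = (262144 * κ / c * l) * #B := by ring
      _ ≤ J * #B := by
          apply mul_le_mul_of_nonneg_right _ hBpos.le
          refine le_trans ?_ hJ1
          apply mul_le_mul_of_nonneg_right _ hl0.le
          rw [hC2]; linarith
  · intro i hi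
    have h1 := exc_le n Q (S i) B (hS i hi).2
      (fun q hq => ⟨(Groups_mem hq).1, (hdvd q hq).2, (Groups_mem hq).2.2.1,
        (Groups_mem hq).2.2.2⟩) (hn1.trans hQn) h8n hBpos'
    have h2 : (2 : ℝ) * #(exc B (S i)) ≤ g := by
      have h3 : 8 * (Q : ℝ) / #B ≤ 32 * l / c := by
        have h4 : 8 * (Q : ℝ) / #B = 8 * (Q / #B) := by ring
        have h5 : 32 * l / c = 8 * (4 * l / c) := by ring
        rw [h4, h5]
        linarith
      have h6 : 2 * (1 + 32 * l / c) ≤ C1 * l := by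
        have h7 : C1 * l = 8 * l + 2 * (32 * l / c) := by rw [hC1]; ring
        rw [h7]; linarith
      linarith
    exact_mod_cast h2

end Helper66.MF
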