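import Mathlib

namespace Helper66.MF

open Finset
open scoped Pointwise

variable {G : Type} [CommGroup G] [Fintype G] [DecidableEq G]

/-- A power of `D` which is stable under `D` contains the closure of `D`. -/
theorem grow_closure {D : Finset G} (hD : D⁻¹ = D) (h1 : (1 : G) ∈ D) (n : ℕ)
    (hs : D ^ (n + 1) ⊆ D ^ n) (h : G) (hh : h ∈ Subgroup.closure (D : Set G)) : h ∈ D ^ n := by
  refine Subgroup.closure_induction (p := fun x _ => ∀ y ∈ D ^ n, x * y ∈ D ^ n)
    ?_ ?_ ?_ ?_ hh 1 ?_ |> fun h2 => by simpa using h2
  · intro x hx y hy
    apply hs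
    rw [pow_succ']
    exact mul_mem_mul (by simpa using hx) hy
  · intro y hy
    simpa using hy
  · intro x y _ _ hx hy z hz
    rw [mul_assoc]
    exact hx _ (hy _ hz)
  · intro x _ hx y hy
    have hinj : Function.Injective (fun z : G => x * z) := mul_right_injective x
    have himg : (D ^ n).image (fun z => x * z) = D ^ n := by
      apply eq_of_subset_of_card_le
      · intro z hz
        obtain ⟨w, hw, rfl⟩ := mem_image.1 hz
        exact hx w hw
      · rw [card_image_of_injective _ hinj]
    rw [← himg] at hy
    obtain ⟨w, hw, rfl⟩ := mem_image.1 hy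
    simpa using hw
  · exact one_mem_pow h1

/-- Growth of the powers of a symmetric set `D` with `1 ∈ D`: either `D ^ (3 k + 1)` is the whole
subgroup generated by `D`, or it has at least `(k + 1) |D|` elements.
Induction on `k`. If `D ^ (3 k + 3) ⊆ D ^ (3 k + 2)` then `D ^ (3 k + 2)` is stable under `D`, so
it contains the closure. Otherwise take `x ∈ D ^ (3 k + 3)`, `x ∉ D ^ (3 k + 2)`: `x D` is disjoint
from `D ^ (3 k + 1)` and both are contained in `D ^ (3 k + 4)`. -/
theorem pow_grow {D : Finset G} (hD : D⁻¹ = D) (h1 : (1 : G) ∈ D) (k : ℕ) :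
    (∀ h ∈ Subgroup.closure (D : Set G), h ∈ D ^ (3 * k + 1)) ∨
      (k + 1) * #D ≤ #(D ^ (3 * k + 1)) := by
  induction k with
  | zero => right; simp
  | succ k ih =>
    have hmono : ∀ m n : ℕ, m ≤ n → D ^ m ⊆ D ^ n := fun m n hmn => pow_subset_pow_right h1 hmn
    rcases ih with ih | ih
    · left
      intro h hh
      exact hmono _ _ (by omega) (ih h hh)
    · by_cases hs : D ^ (3 * k + 2 + 1) ⊆ D ^ (3 * k + 2)
      · left
        intro h hh
        exact hmono _ _ (by omega) (grow_closure hD h1 _ hs h hh)
      · right
        obtain ⟨x, hx, hx'⟩ := not_subset.1 hs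
        have hdisj : Disjoint (D.image (fun z => x * z)) (D ^ (3 * k + 1)) := by
          rw [disjoint_left]
          intro y hy hy'
          obtain ⟨d, hd, rfl⟩ := mem_image.1 hy
          apply hx'
          have hdi : d⁻¹ ∈ D := by
            rw [← hD]
            exact inv_mem_inv hd
          have := mul_mem_mul hy' hdi
          rw [← pow_succ] at this
          simpa using this
        have hsub : D.image (fun z => x * z) ∪ D ^ (3 * k + 1) ⊆ D ^ (3 * (k + 1) + 1) := by
          apply union_subset
          · intro y hy
            obtain ⟨d, hd, rfl⟩ := mem_image.1 hy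
            have := mul_mem_mul hx hd
            rw [← pow_succ] at this
            exact hmono _ _ (by omega) this
          · exact hmono _ _ (by omega)
        have hcard := card_le_card hsub
        rw [card_union_of_disjoint hdisj, card_image_of_injective _ (mul_right_injective x)]
          at hcard
        calc (k + 1 + 1) * #D = #D + (k + 1) * #D := by ring
          _ ≤ #D + #(D ^ (3 * k + 1)) := by omega
          _ ≤ _ := hcard

end Helper66.MF
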