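import Pool.Agent.Helper66.MF.Defs

namespace Helper66.MF

/-- The identity. Write `f + g = q v`, `q + 1 = a t`, `b = f g c`; then `a t v = f + g + v`, so
`a / b = a t v / (b t v) = 1 / (g c t v) + 1 / (f c t v) + 1 / (f g c t)`. -/
theorem rep_of_dvd {a b f g q : ℕ} (hb : 0 < b) (hfg : f * g ∣ b) (hq : q ∣ f + g)
    (ha : a ∣ q + 1) : Rep3 a b := by
  obtain ⟨c, rfl⟩ := hfg
  obtain ⟨v, hv⟩ := hq
  obtain ⟨t, ht⟩ := ha
  have hf : 0 < f := Nat.pos_of_ne_zero (by rintro rfl; simp at hb)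
  have hg : 0 < g := Nat.pos_of_ne_zero (by rintro rfl; simp at hb)
  have hc : 0 < c := Nat.pos_of_ne_zero (by rintro rfl; simp at hb)
  have hv0 : 0 < v := Nat.pos_of_ne_zero (by rintro rfl; omega)
  have ht0 : 0 < t := Nat.pos_of_ne_zero (by rintro rfl; omega)
  refine ⟨g * c * t * v, f * c * t * v, f * g * c * t, by positivity, by positivity,
    by positivity, ?_⟩
  have hf' : (f : ℚ) ≠ 0 := by exact_mod_cast hf.ne'
  have hg' : (g : ℚ) ≠ 0 := by exact_mod_cast hg.ne'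
  have hc' : (c : ℚ) ≠ 0 := by exact_mod_cast hc.ne'
  have hv' : (v : ℚ) ≠ 0 := by exact_mod_cast hv0.ne'
  have ht' : (t : ℚ) ≠ 0 := by exact_mod_cast ht0.ne'
  have e1 : (f : ℚ) + g = q * v := by exact_mod_cast hv
  have e2 : (q : ℚ) + 1 = a * t := by exact_mod_cast ht
  have e3 : (a : ℚ) * t * v = f + g + v := by rw [← e2, e1]; ring
  push_cast
  have h1 : (a : ℚ) / (f * g * c) = (a * t * v) / (f * g * c * t * v) := by
    field_simp
  rw [h1, e3]
  field_simp

/-- Representations pass to multiples of the denominator. -/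
theorem Rep3.mul {a b : ℕ} (h : Rep3 a b) {c : ℕ} (hc : 0 < c) : Rep3 a (b * c) := by
  obtain ⟨x, y, z, hx, hy, hz, h⟩ := h
  refine ⟨x * c, y * c, z * c, by positivity, by positivity, by positivity, ?_⟩
  have hc' : (c : ℚ) ≠ 0 := by exact_mod_cast hc.ne'
  have hx' : (x : ℚ) ≠ 0 := by exact_mod_cast hx.ne'
  have hy' : (y : ℚ) ≠ 0 := by exact_mod_cast hy.ne'
  have hz' : (z : ℚ) ≠ 0 := by exact_mod_cast hz.ne'
  push_cast
  rw [← div_div, h]
  field_simp

/-- Cancellation of a common factor of numerator and denominator. -/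
theorem Rep3.cancel {a b : ℕ} (h : Rep3 a b) {c : ℕ} (hc : 0 < c) : Rep3 (c * a) (c * b) := by
  obtain ⟨x, y, z, hx, hy, hz, h⟩ := h
  refine ⟨x, y, z, hx, hy, hz, ?_⟩
  have hc' : (c : ℚ) ≠ 0 := by exact_mod_cast hc.ne'
  push_cast
  rw [mul_div_mul_left _ _ hc', h]

end Helper66.MF
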