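import Pool.Agent.Helper66.MF.Grow

namespace Helper66.MF

open Finset
open scoped Pointwise

variable {G : Type} [CommGroup G] [Fintype G] [DecidableEq G]

/-- The part of the translate `g X` outside `X`. -/
private def isoOut (X : Finset G) (g : G) : Finset G := (X.image (fun y => g * y)) \ X

private theorem isoOut_mul (X : Finset G) (g h : G) :
    #(isoOut X (g * h)) ≤ #(isoOut X g) + #(isoOut X h) := by
  have hsub : isoOut X (g * h) ⊆ isoOut X g ∪ (isoOut X h).image (fun y => g * y) := by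
    intro z hz
    simp only [isoOut, mem_sdiff, mem_image, mem_union] at hz ⊢
    obtain ⟨⟨y, hy, rfl⟩, hz⟩ := hz
    by_cases hhy : h * y ∈ X
    · left
      exact ⟨⟨h * y, hhy, by rw [mul_assoc]⟩, hz⟩
    · right
      exact ⟨h * y, ⟨⟨y, hy, rfl⟩, hhy⟩, by rw [mul_assoc]⟩
  calc #(isoOut X (g * h)) ≤ #(isoOut X g ∪ (isoOut X h).image (fun y => g * y)) :=
        card_le_card hsub
    _ ≤ #(isoOut X g) + #((isoOut X h).image (fun y => g * y)) := card_union_le _ _
    _ ≤ #(isoOut X g) + #(isoOut X h) := by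
        have := card_image_le (s := isoOut X h) (f := fun y => g * y)
        omega

private theorem isoOut_pow {D X : Finset G} (t : ℕ) (ht : ∀ g ∈ D, #(isoOut X g) ≤ t) (n : ℕ) :
    ∀ g ∈ D ^ n, #(isoOut X g) ≤ n * t := by
  induction n with
  | zero =>
    intro g hg
    rw [pow_zero, mem_one] at hg
    subst hg
    simp [isoOut]
  | succ n ih =>
    intro g hg
    rw [pow_succ] at hg
    obtain ⟨a, ha, b, hb, rfl⟩ := mem_mul.1 hg
    have h1 := isoOut_mul X a b
    have h2 := ih a ha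
    have h3 := ht b hb
    rw [Nat.succ_mul]
    omega

private theorem iso_exists {P X : Finset G} (hX : X.Nonempty) (hP : 2 * #X ≤ #P) :
    ∃ g ∈ P, #X ≤ 2 * #(isoOut X g) := by
  by_contra hcon
  push Not at hcon
  have hXpos : 0 < #X := card_pos.2 hX
  have hPne : P.Nonempty := card_pos.1 (by omega)
  -- pairs
  have hpair : ∑ g ∈ P, #(X.filter (fun p => g * p ∈ X)) ≤ #X * #X := by
    rw [← card_sigma, ← card_product]
    apply card_le_card_of_injOn (fun s => (s.1 * s.2, s.2))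
    · intro s hs
      simp only [coe_sigma, Set.mem_sigma_iff, mem_coe, mem_filter] at hs
      simp [hs.2.1, hs.2.2]
    · intro s _ r _ h
      simp only [Prod.mk.injEq] at h
      obtain ⟨h1, h2⟩ := h
      rw [h2] at h1
      have h3 : s.1 = r.1 := mul_right_cancel h1
      exact Sigma.ext h3 (heq_of_eq h2)
  have hone : ∀ g ∈ P, #X < 2 * #(X.filter (fun p => g * p ∈ X)) := by
    intro g hg
    have h1 := hcon g hg
    have h2 : #(isoOut X g) = #(X.filter (fun p => ¬ g * p ∈ X)) := by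
      have h3 : isoOut X g = (X.filter (fun p => ¬ g * p ∈ X)).image (fun y => g * y) := by
        ext z
        simp only [isoOut, mem_sdiff, mem_image, mem_filter]
        constructor
        · rintro ⟨⟨y, hy, rfl⟩, hz⟩
          exact ⟨y, ⟨hy, hz⟩, rfl⟩
        · rintro ⟨y, ⟨hy, hz⟩, rfl⟩
          exact ⟨⟨y, hy, rfl⟩, hz⟩
      rw [h3, card_image_of_injective _ (mul_right_injective g)]
    have h4 := card_filter_add_card_filter_not (s := X) (fun p => g * p ∈ X)
    omega
  have hsum : ∑ g ∈ P, #X < ∑ g ∈ P, 2 * #(X.filter (fun p => g * p ∈ X)) :=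
    sum_lt_sum_of_nonempty hPne hone
  rw [sum_const, smul_eq_mul, ← mul_sum] at hsum
  have h5 : 2 * #X * #X ≤ #P * #X := Nat.mul_le_mul_right _ hP
  nlinarith

/-- Growth of a subset `X` of the subgroup `H` generated by the symmetric set `D`, when
`|X| ≤ |H| / 2`: `|X D| ≥ |X| + |D| / 16`.

Proof. Let `t = |X D| - |X|` (note `X ⊆ X D`). For `x ∈ D` we have `|x X \ X| ≤ t`, and
`|x y X \ X| ≤ |x X \ X| + |y X \ X|`, so `|x X \ X| ≤ N t` for `x ∈ D ^ N`. Let
`k = 2 |X| / |D|` (floor), `N = 3 k + 1`. By `pow_grow`, `|D ^ N| ≥ min(|H|, (k + 1) |D|)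
≥ 2 |X|`. The number of pairs `(x, p) ∈ D ^ N × X` with `x p ∈ X` is at most `|X| ^ 2`, so some
`x ∈ D ^ N` has `|x X ∩ X| ≤ |X| / 2`, `|x X \ X| ≥ |X| / 2`: hence `|X| ≤ 2 N t = (6 k + 2) t`.
Multiply by `|D|`: `|X| |D| ≤ (12 |X| + 2 |D|) t`. If `|D| ≤ 2 |X|` this gives `|D| ≤ 16 t`.
If `|D| > 2 |X|` then `t ≥ |D| - |X| ≥ |D| / 2`. -/
theorem iso {D X : Finset G} (hD : D⁻¹ = D) (h1 : (1 : G) ∈ D) (hX : X.Nonempty)
    (hXH : ∀ x ∈ X, x ∈ Subgroup.closure (D : Set G))
    (hc : 2 * #X ≤ Nat.card (Subgroup.closure (D : Set G))) :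
    #D + 16 * #X ≤ 16 * #(X * D) := by
  have _ := hXH
  have hDpos : 0 < #D := card_pos.2 ⟨1, h1⟩
  have hXpos : 0 < #X := card_pos.2 hX
  have hsub : X ⊆ X * D := fun x hx => by simpa using mul_mem_mul hx h1
  obtain ⟨t, ht⟩ : ∃ t, #(X * D) = #X + t := ⟨#(X * D) - #X, by have := card_le_card hsub; omega⟩
  have hone : ∀ g ∈ D, #(isoOut X g) ≤ t := by
    intro g hg
    have h2 : isoOut X g ⊆ (X * D) \ X := by
      intro z hz
      simp only [isoOut, mem_sdiff, mem_image] at hz ⊢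
      obtain ⟨⟨y, hy, rfl⟩, hz⟩ := hz
      exact ⟨(mul_comm y g) ▸ mul_mem_mul hy hg, hz⟩
    have h3 := card_le_card h2
    rw [card_sdiff_of_subset hsub] at h3
    omega
  have hDX : #D ≤ #(X * D) := by
    obtain ⟨x, hx⟩ := hX
    have h2 : D.image (fun y => x * y) ⊆ X * D := by
      intro z hz
      obtain ⟨y, hy, rfl⟩ := mem_image.1 hz
      exact mul_mem_mul hx hy
    have h3 := card_le_card h2
    rwa [card_image_of_injective _ (mul_right_injective x)] at h3
  obtain ⟨k, hk1, hk2⟩ : ∃ k, k * #D ≤ 2 * #X ∧ 2 * #X ≤ (k + 1) * #D := by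
    refine ⟨2 * #X / #D, Nat.div_mul_le_self _ _, ?_⟩
    have h2 := Nat.div_add_mod (2 * #X) #D
    have h3 := Nat.mod_lt (2 * #X) hDpos
    nlinarith
  have hP : 2 * #X ≤ #(D ^ (3 * k + 1)) := by
    rcases pow_grow hD h1 k with h | h
    · refine hc.trans ?_
      have h2 : Nat.card (Subgroup.closure (D : Set G)) =
          ((Subgroup.closure (D : Set G) : Subgroup G) : Set G).ncard := by
        rw [← Nat.card_coe_set_eq]
        rfl
      rw [h2, ← Set.ncard_coe_finset]
      apply Set.ncard_le_ncard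
      · intro y hy
        exact h y hy
      · exact Set.toFinite _
    · exact hk2.trans h
  obtain ⟨g, hg, hgX⟩ := iso_exists hX hP
  have hgt := isoOut_pow t hone _ g hg
  have hmain : #X ≤ 2 * ((3 * k + 1) * t) := hgX.trans (by omega)
  rw [ht]
  rcases le_or_gt #D (2 * #X) with hle | hlt
  · have h2 : #X * #D ≤ #X * (16 * t) := by
      have h3 : #X * #D ≤ 2 * ((3 * k + 1) * t) * #D := Nat.mul_le_mul_right _ hmain
      have h4 : 2 * ((3 * k + 1) * t) * #D = (6 * (k * #D) + 2 * #D) * t := by ring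
      have h5 : (6 * (k * #D) + 2 * #D) * t ≤ (6 * (2 * #X) + 2 * (2 * #X)) * t := by
        apply Nat.mul_le_mul_right
        omega
      have h6 : (6 * (2 * #X) + 2 * (2 * #X)) * t = #X * (16 * t) := by ring
      omega
    have h3 := Nat.le_of_mul_le_mul_left h2 hXpos
    omega
  · omega

end Helper66.MF
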