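import Pool.Agent.Helper66.MF.Groups
import Pool.Agent.Helper66.MF.Distr

namespace Helper66.MF

open Finset

/-- The theorem with the local count of prime factors, multiplicities truncated at `log y`.
From `groups` and `exists_groups` with `n = ⌊y⌋₊`, `J = ⌈C2 log n⌉₊`, `g = ⌈C1 log n⌉₊`:
`log y ≤ 2 log n ≤ J`, so the sum is at most `∑ min (b.factorization p) J`, and
`J g ≤ (C2 + 2) (C1 + 2) (log y) ^ 2` (say). For `n < n0` the hypothesis is impossible if `C` is
large: the sum is at most `n log y ≤ n0 log y`, less than `C (log y) ^ 2` if `n0 < C log 2`. -/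
theorem local_count (a : ℕ) (ha : 0 < a) : ∃ C : ℝ, 0 < C ∧ ∀ b : ℕ, 0 < b → ∀ y : ℝ, 2 ≤ y →
    C * Real.log y ^ 2 ≤ ∑ p ∈ Icc 1 ⌊y⌋₊ with p.Prime, min (b.factorization p : ℝ) (Real.log y) →
    Rep3 a b := by
  obtain ⟨C1, C2, hC1, hC2, n0, hn0, hmain⟩ := groups a ha
  have hn0' : (0 : ℝ) ≤ n0 := Nat.cast_nonneg _
  refine ⟨(C2 + 2) * (C1 + 2) + 2 * n0, by positivity, ?_⟩
  intro b hb y hy hsum
  have hy0 : (0 : ℝ) < y := by linarith
  have hlog2 : (1 : ℝ) / 2 < Real.log 2 := by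
    have := Real.log_two_gt_d9
    linarith
  have hly2 : Real.log 2 ≤ Real.log y := Real.log_le_log (by norm_num) hy
  have hly : (1 : ℝ) / 2 < Real.log y := by linarith
  set n : ℕ := ⌊y⌋₊ with hn
  have hn2 : 2 ≤ n := Nat.le_floor (by exact_mod_cast hy)
  have hny : (n : ℝ) ≤ y := Nat.floor_le hy0.le
  have hyn : y < n + 1 := Nat.lt_floor_add_one y
  have hn2' : (2 : ℝ) ≤ n := by exact_mod_cast hn2
  have hn0p : (0 : ℝ) < n := by linarith
  have hlny : Real.log n ≤ Real.log y := Real.log_le_log hn0p hny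
  have hln0 : 0 ≤ Real.log n := Real.log_nonneg (by linarith)
  have hlyn : Real.log y ≤ 2 * Real.log n := by
    have h1 : y ≤ (n : ℝ) ^ 2 := by nlinarith
    have h2 := Real.log_le_log hy0 h1
    rw [Real.log_pow] at h2
    exact_mod_cast h2
  rcases lt_or_ge n n0 with hlt | hge
  · exfalso
    have h1 : ∑ p ∈ Icc 1 n with p.Prime, min (b.factorization p : ℝ) (Real.log y) ≤
        (n : ℝ) * Real.log y := by
      refine (sum_le_card_nsmul _ _ (Real.log y) fun p _ => min_le_right _ _).trans ?_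
      rw [nsmul_eq_mul]
      refine mul_le_mul_of_nonneg_right ?_ (by linarith)
      have h2 : #{p ∈ Icc 1 n | p.Prime} ≤ n := by
        refine (card_filter_le _ _).trans ?_
        simp
      exact_mod_cast h2
    have h3 : (n : ℝ) ≤ n0 := by exact_mod_cast hlt.le
    have h4 : (n : ℝ) * Real.log y ≤ n0 * Real.log y :=
      mul_le_mul_of_nonneg_right h3 (by linarith)
    have h5 : (n0 : ℝ) * Real.log y ≤ 2 * n0 * Real.log y ^ 2 := by
      have : (1 : ℝ) ≤ 2 * Real.log y := by linarith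
      have h6 : 0 ≤ (n0 : ℝ) * Real.log y := by positivity
      nlinarith
    have h7 : 0 < (C2 + 2) * (C1 + 2) * Real.log y ^ 2 := by positivity
    nlinarith
  · set J : ℕ := ⌈C2 * Real.log n⌉₊ with hJ
    set g : ℕ := ⌈C1 * Real.log n⌉₊ with hg
    have hJ1 : Real.log y ≤ J := by
      refine le_trans ?_ (Nat.le_ceil _)
      nlinarith
    have hJ2 : (J : ℝ) ≤ (C2 + 2) * Real.log y := by
      have h1 : (J : ℝ) < C2 * Real.log n + 1 := Nat.ceil_lt_add_one (by positivity)
      nlinarith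
    have hg2 : (g : ℝ) ≤ (C1 + 2) * Real.log y := by
      have h1 : (g : ℝ) < C1 * Real.log n + 1 := Nat.ceil_lt_add_one (by positivity)
      nlinarith
    have hJg : (J : ℝ) * g ≤ (C2 + 2) * (C1 + 2) * Real.log y ^ 2 := by
      have h1 : (J : ℝ) * g ≤ ((C2 + 2) * Real.log y) * ((C1 + 2) * Real.log y) :=
        mul_le_mul hJ2 hg2 (Nat.cast_nonneg _) (by positivity)
      nlinarith
    have hle : J * g ≤ ∑ p ∈ Icc 1 n with p.Prime, min (b.factorization p) J := by
      have h1 : ((J * g : ℕ) : ℝ) ≤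
          ((∑ p ∈ Icc 1 n with p.Prime, min (b.factorization p) J : ℕ) : ℝ) := by
        push_cast
        have h2 : ∑ p ∈ Icc 1 n with p.Prime, min (b.factorization p : ℝ) (Real.log y) ≤
            ∑ p ∈ Icc 1 n with p.Prime, min (b.factorization p : ℝ) (J : ℝ) :=
          sum_le_sum fun p _ => min_le_min le_rfl hJ1
        have h3 : (C2 + 2) * (C1 + 2) * Real.log y ^ 2 ≤
            ((C2 + 2) * (C1 + 2) + 2 * n0) * Real.log y ^ 2 := by
          have : 0 ≤ 2 * (n0 : ℝ) * Real.log y ^ 2 := by positivity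
          nlinarith
        linarith
      exact_mod_cast h1
    obtain ⟨S, hS, hdvd⟩ := exists_groups hb ((Icc 1 n).filter Nat.Prime)
      (fun p hp => (mem_filter.1 hp).2) g J hle
    refine hmain n hge b hb S (fun i hi => ⟨(hS i hi).1, fun p hp => ?_⟩) hdvd
    have h1 := mem_filter.1 ((hS i hi).2 hp)
    exact ⟨h1.2, (mem_Icc.1 h1.1).2⟩

end Helper66.MF
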