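import Pool.Agent.Helper66.MF.Local

namespace Helper66.MF

open Finset

/-- Many distinct prime factors. Let `w = ω(b) ≥ C' (log b) ^ (2/3)`, `w ≥ 1`, and
`log y = 2 log b / w` (`≥ 2 log 2` as `2 ^ w ≤ b`). At most `w / 2` prime factors exceed `y`, and
each of the others has `min (b.factorization p) (log y) ≥ min 1 (log y) = 1`, so the sum in
`local_count` is at least `w / 2 ≥ C (2 log b / w) ^ 2` if `w ^ 3 ≥ 8 C (log b) ^ 2`. -/
theorem omega_count (a : ℕ) (ha : 0 < a) : ∃ C : ℝ, 0 < C ∧ ∀ b : ℕ, 2 ≤ b →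
    C * Real.log b ^ (2 / 3 : ℝ) ≤ #b.primeFactors → Rep3 a b := by
  obtain ⟨C, hC, hmain⟩ := local_count a ha
  refine ⟨8 * C + 1, by positivity, fun b hb h => ?_⟩
  have hb0 : b ≠ 0 := by omega
  have hbR : (2 : ℝ) ≤ b := by exact_mod_cast hb
  have hL : 0 < Real.log b := Real.log_pos (by linarith)
  have hlog2 : (1 : ℝ) / 2 < Real.log 2 := by
    have := Real.log_two_gt_d9
    linarith
  set w : ℕ := #b.primeFactors with hw
  have hw0 : 0 < w := by
    rw [hw, card_pos]
    exact Nat.nonempty_primeFactors.2 (by omega)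
  have hwR : (0 : ℝ) < w := by exact_mod_cast hw0
  -- the sum of the logarithms of the prime factors
  have hprod : ∑ p ∈ b.primeFactors, Real.log p ≤ Real.log b := by
    rw [← Real.log_prod (fun p hp => by
      have := (Nat.prime_of_mem_primeFactors hp).pos
      positivity)]
    apply Real.log_le_log
    · apply prod_pos
      intro p hp
      exact_mod_cast (Nat.prime_of_mem_primeFactors hp).pos
    · have h1 : ((∏ p ∈ b.primeFactors, p : ℕ) : ℝ) ≤ b := by
        exact_mod_cast Nat.le_of_dvd (by omega) (Nat.prod_primeFactors_dvd b)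
      push_cast at h1
      exact h1
  have hw2 : (w : ℝ) * Real.log 2 ≤ Real.log b := by
    refine le_trans ?_ hprod
    rw [hw, ← nsmul_eq_mul]
    apply card_nsmul_le_sum
    intro p hp
    apply Real.log_le_log (by norm_num)
    exact_mod_cast (Nat.prime_of_mem_primeFactors hp).two_le
  set t : ℝ := 2 * Real.log b / w with ht
  have ht1 : 1 ≤ t := by
    rw [ht, le_div_iff₀ hwR]
    nlinarith
  have hly : Real.log (Real.exp t) = t := Real.log_exp t
  have hy2 : 2 ≤ Real.exp t := by
    have := Real.add_one_le_exp t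
    linarith
  refine hmain b (by omega) (Real.exp t) hy2 ?_
  rw [hly]
  -- the large prime factors
  have hbig : (#(b.primeFactors.filter (fun p : ℕ => ¬ (p : ℝ) ≤ Real.exp t)) : ℝ) ≤ w / 2 := by
    have h1 : (#(b.primeFactors.filter (fun p : ℕ => ¬ (p : ℝ) ≤ Real.exp t)) : ℝ) * t ≤ Real.log b := by
      refine le_trans ?_ hprod
      refine le_trans ?_ (sum_le_sum_of_subset_of_nonneg (filter_subset
        (fun p : ℕ => ¬ (p : ℝ) ≤ Real.exp t) b.primeFactors) ?_)
      · rw [← nsmul_eq_mul]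
        apply card_nsmul_le_sum
        intro p hp
        have h2 := (mem_filter.1 hp).2
        rw [not_le] at h2
        rw [← hly]
        exact Real.log_le_log (Real.exp_pos t) h2.le
      · intro p hp _
        apply Real.log_nonneg
        exact_mod_cast (Nat.prime_of_mem_primeFactors hp).one_lt.le
    rw [ht] at h1
    rw [← ht] at h1
    have h3 : t * w = 2 * Real.log b := by
      rw [ht]
      field_simp
    have h4 : 0 < t := by linarith
    have h5 : (#(b.primeFactors.filter (fun p : ℕ => ¬ (p : ℝ) ≤ Real.exp t)) : ℝ) * t ≤ w / 2 * t := by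
      nlinarith
    exact le_of_mul_le_mul_right h5 h4
  have hsplit : (#(b.primeFactors.filter (fun p : ℕ => (p : ℝ) ≤ Real.exp t)) : ℝ) +
      (#(b.primeFactors.filter (fun p : ℕ => ¬ (p : ℝ) ≤ Real.exp t)) : ℝ) = w := by
    rw [hw]
    exact_mod_cast card_filter_add_card_filter_not (s := b.primeFactors)
      (fun p : ℕ => (p : ℝ) ≤ Real.exp t)
  have hsmall : (w : ℝ) / 2 ≤ #(b.primeFactors.filter (fun p : ℕ => (p : ℝ) ≤ Real.exp t)) := by linarith
  have hsum : (#(b.primeFactors.filter (fun p : ℕ => (p : ℝ) ≤ Real.exp t)) : ℝ) ≤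
      ∑ p ∈ Icc 1 ⌊Real.exp t⌋₊ with p.Prime, min (b.factorization p : ℝ) t := by
    have hsub : (b.primeFactors.filter (fun p : ℕ => (p : ℝ) ≤ Real.exp t)) ⊆
        (Icc 1 ⌊Real.exp t⌋₊).filter Nat.Prime := by
      intro p hp
      obtain ⟨h1, h2⟩ := mem_filter.1 hp
      have hpp := Nat.prime_of_mem_primeFactors h1
      exact mem_filter.2 ⟨mem_Icc.2 ⟨hpp.pos, Nat.le_floor h2⟩, hpp⟩
    refine le_trans ?_ (sum_le_sum_of_subset_of_nonneg hsub ?_)
    · have h1 : (#(b.primeFactors.filter (fun p : ℕ => (p : ℝ) ≤ Real.exp t)) : ℝ) =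
          #(b.primeFactors.filter (fun p : ℕ => (p : ℝ) ≤ Real.exp t)) • (1 : ℝ) := by
        rw [nsmul_eq_mul, mul_one]
      rw [h1]
      apply card_nsmul_le_sum
      intro p hp
      obtain ⟨h1, h2⟩ := mem_filter.1 hp
      have hpp := Nat.prime_of_mem_primeFactors h1
      apply le_min _ ht1
      have h3 := hpp.factorization_pos_of_dvd hb0 (Nat.dvd_of_mem_primeFactors h1)
      exact_mod_cast h3
    · intro p _ _
      exact le_min (by positivity) (by linarith)
  refine le_trans ?_ (hsmall.trans hsum)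
  -- the numbers
  have hcube : (8 * C) * Real.log b ^ 2 ≤ (w : ℝ) ^ 3 := by
    have h0 : 0 ≤ Real.log b ^ (2 / 3 : ℝ) := by positivity
    have h1 : ((8 * C + 1) * Real.log b ^ (2 / 3 : ℝ)) ^ 3 ≤ (w : ℝ) ^ 3 :=
      pow_le_pow_left₀ (by positivity) h 3
    have h2 : (Real.log b ^ (2 / 3 : ℝ)) ^ 3 = Real.log b ^ 2 := by
      rw [← Real.rpow_natCast, ← Real.rpow_mul hL.le, ← Real.rpow_natCast]
      norm_num
    rw [mul_pow, h2] at h1
    refine le_trans ?_ h1
    apply mul_le_mul_of_nonneg_right _ (by positivity)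
    nlinarith [sq_nonneg C, mul_pos hC hC, mul_pos (mul_pos hC hC) hC]
  rw [ht, div_pow, mul_pow]
  rw [← mul_div_assoc, div_le_div_iff₀ (by positivity) (by norm_num)]
  nlinarith

/-- Squarefree numbers without large prime factors: `ω(b) ≥ log b / log P(b)`. -/
theorem squarefree_smooth (a : ℕ) (ha : 0 < a) : ∃ c : ℝ, 0 < c ∧ ∀ b : ℕ, 2 ≤ b → Squarefree b →
    (∀ p ∈ b.primeFactors, Real.log p ≤ c * Real.log b ^ (1 / 3 : ℝ)) → Rep3 a b := by
  obtain ⟨C, hC, hmain⟩ := omega_count a ha
  refine ⟨C⁻¹, by positivity, fun b hb hsq h => hmain b hb ?_⟩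
  have hbR : (2 : ℝ) ≤ b := by exact_mod_cast hb
  have hL : 0 < Real.log b := Real.log_pos (by linarith)
  have h1 : Real.log b = ∑ p ∈ b.primeFactors, Real.log p := by
    rw [← Real.log_prod (fun p hp => by
      have := (Nat.prime_of_mem_primeFactors hp).pos
      positivity)]
    congr 1
    conv_lhs => rw [← Nat.prod_primeFactors_of_squarefree hsq]
    push_cast
    rfl
  have h2 : Real.log b ≤ #b.primeFactors * (C⁻¹ * Real.log b ^ (1 / 3 : ℝ)) := by
    rw [← nsmul_eq_mul]
    conv_lhs => rw [h1]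
    exact sum_le_card_nsmul _ _ _ h
  have h3 : Real.log b = Real.log b ^ (2 / 3 : ℝ) * Real.log b ^ (1 / 3 : ℝ) := by
    rw [← Real.rpow_add hL]
    norm_num
  have h4 : 0 < Real.log b ^ (1 / 3 : ℝ) := by positivity
  have h5 : Real.log b ^ (2 / 3 : ℝ) * Real.log b ^ (1 / 3 : ℝ) ≤
      (#b.primeFactors * C⁻¹) * Real.log b ^ (1 / 3 : ℝ) := by
    rw [← h3, mul_assoc]
    exact h2
  have h6 := le_of_mul_le_mul_right h5 h4
  rw [← div_eq_mul_inv, le_div_iff₀ hC] at h6
  linarith

/-- Many divisors: `τ(b) = ∏ (v_p + 1) ≤ (1 + log b / log 2) ^ ω(b)`. -/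
theorem divisor_count (a : ℕ) (ha : 0 < a) (ε : ℝ) (hε : 0 < ε) : ∃ N : ℕ, ∀ b : ℕ, N ≤ b →
    Real.exp (Real.log b ^ (2 / 3 + ε)) ≤ #b.divisors → Rep3 a b := by
  obtain ⟨C, hC, hmain⟩ := omega_count a ha
  -- the growth
  have hev : ∀ᶠ x : ℝ in Filter.atTop, 2 * C * Real.log x ≤ x ^ ε := by
    have h1 := (isLittleO_log_rpow_atTop hε).def (c := (2 * C)⁻¹) (by positivity)
    filter_upwards [h1, Filter.eventually_ge_atTop 1] with x hx hx1
    rw [Real.norm_of_nonneg (Real.log_nonneg hx1), Real.norm_of_nonneg (by positivity)] at hx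
    rw [← div_eq_inv_mul, le_div_iff₀ (by positivity)] at hx
    linarith
  obtain ⟨X, hX⟩ := Filter.eventually_atTop.1 hev
  have hlogt : Filter.Tendsto (fun n : ℕ => Real.log (n : ℝ)) Filter.atTop Filter.atTop :=
    Real.tendsto_log_atTop.comp tendsto_natCast_atTop_atTop
  obtain ⟨N, hN⟩ := Filter.eventually_atTop.1
    ((hlogt.eventually_ge_atTop X).and (hlogt.eventually_ge_atTop 4))
  refine ⟨max N 2, fun b hb h => ?_⟩
  have hbN : N ≤ b := (le_max_left _ _).trans hb
  have hb2 : 2 ≤ b := (le_max_right _ _).trans hb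
  have hb0 : b ≠ 0 := by omega
  obtain ⟨hbX, hb4⟩ := hN b hbN
  have hgrow := hX _ hbX
  set L : ℝ := Real.log b with hLdef
  have hL : 0 < L := by linarith
  refine hmain b hb2 ?_
  set w : ℕ := #b.primeFactors with hw
  have hlog2 : (1 : ℝ) / 2 < Real.log 2 := by
    have := Real.log_two_gt_d9
    linarith
  -- the number of divisors
  have hdiv : (#b.divisors : ℝ) ≤ (L ^ 2) ^ w := by
    rw [Nat.card_divisors hb0]
    push_cast
    rw [hw, ← prod_const]
    apply prod_le_prod
    · intro p _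
      positivity
    · intro p hp
      have h1 : p ^ b.factorization p ≤ b := Nat.le_of_dvd (by omega) (Nat.ordProj_dvd b p)
      have h2 : 2 ^ b.factorization p ≤ b :=
        (Nat.pow_le_pow_left (Nat.prime_of_mem_primeFactors hp).two_le _).trans h1
      have h3 : (b.factorization p : ℝ) * Real.log 2 ≤ L := by
        rw [← Real.log_pow]
        apply Real.log_le_log (by positivity)
        exact_mod_cast h2
      nlinarith
  have h1 : L ^ (2 / 3 + ε) ≤ w * (2 * Real.log L) := by
    have h2 := Real.log_le_log (Real.exp_pos _) (h.trans hdiv)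
    rw [Real.log_exp, Real.log_pow, Real.log_pow] at h2
    push_cast at h2
    exact h2
  have hlogL : 0 < Real.log L := Real.log_pos (by linarith)
  have h2 : L ^ (2 / 3 : ℝ) * (2 * C * Real.log L) ≤ w * (2 * Real.log L) := by
    refine le_trans ?_ h1
    rw [Real.rpow_add hL]
    exact mul_le_mul_of_nonneg_left hgrow (by positivity)
  have h3 : (C * L ^ (2 / 3 : ℝ)) * (2 * Real.log L) ≤ w * (2 * Real.log L) := by
    nlinarith
  exact le_of_mul_le_mul_right h3 (by positivity)

end Helper66.MF
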