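import Pool.Agent.Helper66.MF.Crit

namespace Helper66.MF

private lemma Power_dir {M N u v : ℕ} (hM : M ≠ 0) (hN : N ≠ 0) (hMN : M.Coprime N)
    (hu : u.Coprime M) (hv : v.Coprime N) (n : ℕ) :
    ∃ q > n, q.Prime ∧ q ≡ u [MOD M] ∧ q ≡ v [MOD N] := by
  obtain ⟨k, hk1, hk2⟩ := Nat.chineseRemainder hMN u v
  have hc : k.Coprime (M * N) := by
    refine Nat.Coprime.mul_right ?_ ?_
    · unfold Nat.Coprime
      rw [hk1.gcd_eq]
      exact hu
    · unfold Nat.Coprime
      rw [hk2.gcd_eq]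
      exact hv
  obtain ⟨q, hqn, hq, hqk⟩ := Nat.forall_exists_prime_gt_and_modEq n (mul_ne_zero hM hN) hc
  exact ⟨q, hqn, hq, (hqk.of_mul_right N).trans hk1, (hqk.of_mul_left M).trans hk2⟩

private lemma Power_pred {c : ℕ} (hc : 0 < c) : (c - 1).Coprime c := by
  have h := (Nat.coprime_self_sub_right (m := 1) (n := c) hc).mpr (Nat.coprime_one_right c)
  exact h.symm

private lemma Power_dvd {q c a : ℕ} (hc : 0 < c) (ha : a ∣ c) (h : q ≡ c - 1 [MOD c]) :
    a ∣ q + 1 := by
  refine ha.trans ?_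
  have h1 := h.add_right 1
  rw [Nat.sub_add_cancel hc] at h1
  have h2 : q + 1 ≡ 0 [MOD c] := h1.trans (by simp [Nat.ModEq])
  exact (Nat.modEq_zero_iff_dvd).mp h2

/-- Dirichlet and reciprocity: for a prime `p` not dividing `a` there is a prime `q` with
`a ∣ q + 1` modulo which `p` is not a square. For `p` odd let `t` be a non-square modulo `p` and
`q ≡ -1 (mod 8 a)`, `q ≡ -t (mod p)`: `(p / q) = (-q / p) = (t / p) = -1`. For `p = 2` (`a` odd)
let `q ≡ 3 (mod 8)`, `q ≡ -1 (mod a)`. -/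
theorem exists_modulus {a p : ℕ} (ha : 0 < a) (hp : p.Prime) (hpa : ¬ p ∣ a) :
    ∃ q : ℕ, q.Prime ∧ a ∣ q + 1 ∧ ¬ IsSquare (p : ZMod q) := by
  have : Fact p.Prime := ⟨hp⟩
  have hpac : a.Coprime p := ((Nat.Prime.coprime_iff_not_dvd hp).mpr hpa).symm
  rcases hp.eq_two_or_odd with h2 | hodd
  · subst h2
    have h8 : a.Coprime 8 := by
      have : (8 : ℕ) = 2 ^ 3 := by norm_num
      rw [this]
      exact Nat.Coprime.pow_right 3 hpac
    obtain ⟨q, hqn, hq, h1, h3⟩ := Power_dir (M := a) (N := 8) (u := a - 1) (v := 3) ha.ne'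
      (by norm_num) h8 (Power_pred ha) (by norm_num) 2
    have : Fact q.Prime := ⟨hq⟩
    refine ⟨q, hq, Power_dvd ha dvd_rfl h1, ?_⟩
    have h4 : q % 8 = 3 := h3
    intro hs
    have := (ZMod.exists_sq_eq_two_iff (p := q) (by omega)).mp (by exact_mod_cast hs)
    omega
  · have hp2 : p ≠ 2 := by rintro rfl; omega
    have h4a : (4 * a).Coprime p := by
      refine Nat.Coprime.mul_left ?_ hpac
      have : (4 : ℕ) = 2 ^ 2 := by norm_num
      rw [this]
      exact Nat.Coprime.pow_left 2 ((Nat.coprime_primes Nat.prime_two hp).mpr (Ne.symm hp2))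
    have h4 : 0 < 4 * a := by positivity
    have hq4 : ∀ q : ℕ, q ≡ 4 * a - 1 [MOD 4 * a] → q % 4 = 3 := by
      intro q hq
      have h5 : q ≡ 4 * a - 1 [MOD 4] := hq.of_mul_right a
      have h6 : q % 4 = (4 * a - 1) % 4 := h5
      omega
    rcases (by omega : p % 4 = 1 ∨ p % 4 = 3) with hp4 | hp4
    · obtain ⟨s, hs⟩ := FiniteField.exists_nonsquare (F := ZMod p) (by
        rw [ZMod.ringChar_zmod_n]; exact hp2)
      have hs0 : s ≠ 0 := by
        rintro rfl
        exact hs (IsSquare.zero)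
      have hsc : (ZMod.val s).Coprime p := by
        rw [Nat.coprime_comm, Nat.Prime.coprime_iff_not_dvd hp]
        intro hd
        have := (ZMod.natCast_eq_zero_iff (ZMod.val s) p).mpr hd
        rw [ZMod.natCast_zmod_val] at this
        exact hs0 this
      obtain ⟨q, hqn, hq, h1, h3⟩ := Power_dir (M := 4 * a) (N := p) (u := 4 * a - 1)
        (v := ZMod.val s) h4.ne' hp.ne_zero h4a (Power_pred h4) hsc 2
      have : Fact q.Prime := ⟨hq⟩
      refine ⟨q, hq, Power_dvd h4 (Dvd.intro_left 4 rfl) h1, ?_⟩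
      intro hsq
      have h5 := (ZMod.exists_sq_eq_prime_iff_of_mod_four_eq_one (p := p) (q := q) hp4
        (by omega)).mpr hsq
      apply hs
      have h6 : (q : ZMod p) = s := by
        rw [← ZMod.natCast_zmod_val s]
        exact (ZMod.natCast_eq_natCast_iff _ _ _).mpr h3
      rwa [h6] at h5
    · obtain ⟨q, hqn, hq, h1, h3⟩ := Power_dir (M := 4 * a) (N := p) (u := 4 * a - 1)
        (v := 1) h4.ne' hp.ne_zero h4a (Power_pred h4) (Nat.coprime_one_left p) p
      have : Fact q.Prime := ⟨hq⟩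
      refine ⟨q, hq, Power_dvd h4 (Dvd.intro_left 4 rfl) h1, ?_⟩
      intro hsq
      have h5 := (ZMod.exists_sq_eq_prime_iff_of_mod_four_eq_three (p := q) (q := p)
        (hq4 q h1) hp4 (by omega)).mp hsq
      apply h5
      have h6 : (q : ZMod p) = 1 := by
        have := (ZMod.natCast_eq_natCast_iff _ _ _).mpr h3
        simpa using this
      rw [h6]
      exact IsSquare.one

/-- Every multiple of a high power of `p` is good. Write `a = p ^ s a'` with `p ∤ a'`; for
`m = s + q`, `p ^ m ∣ b`, `b = p ^ s b'`, `criterion` gives `Rep3 a' b'` and `Rep3.cancel` gives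
`Rep3 a b`. -/
theorem prime_power (a : ℕ) (ha : 0 < a) (p : ℕ) (hp : p.Prime) :
    ∃ m : ℕ, ∀ b : ℕ, 0 < b → p ^ m ∣ b → Rep3 a b := by
  obtain ⟨s, a', hpa', rfl⟩ := Nat.exists_eq_pow_mul_and_not_dvd ha.ne' p hp.ne_one
  have ha' : 0 < a' := Nat.pos_of_mul_pos_left ha
  obtain ⟨q, hq, hqa, hnsq⟩ := exists_modulus ha' hp hpa'
  refine ⟨s + q, ?_⟩
  rintro b hb ⟨c, rfl⟩
  have hc : 0 < c := Nat.pos_of_mul_pos_left hb
  rw [pow_add, mul_assoc]
  refine Rep3.cancel ?_ (pow_pos hp.pos s)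
  have hb' : 0 < p ^ q * c := Nat.mul_pos (pow_pos hp.pos q) hc
  refine criterion hq hqa hb' ?_
  have hle : q ≤ (p ^ q * c).factorization p :=
    (hp.pow_dvd_iff_le_factorization hb'.ne').mp (Dvd.intro c rfl)
  have hmem : p ∈ nonres q (p ^ q * c).primeFactors := by
    classical
    unfold nonres
    rw [Finset.mem_filter]
    refine ⟨?_, hnsq⟩
    rw [Nat.mem_primeFactors]
    refine ⟨hp, ?_, hb'.ne'⟩
    exact Dvd.dvd.mul_right (dvd_pow_self p hq.ne_zero) c
  calc q - 1 ≤ q := Nat.sub_le _ _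
    _ ≤ (p ^ q * c).factorization p := hle
    _ ≤ ∑ r ∈ nonres q (p ^ q * c).primeFactors, (p ^ q * c).factorization r :=
      Finset.single_le_sum (f := fun r => (p ^ q * c).factorization r)
        (fun _ _ => Nat.zero_le _) hmem

end Helper66.MF
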