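import Pool.Agent.Helper66.MF.Ident

namespace Helper66.MF

open Finset
open scoped Pointwise

variable {q : ℕ} [Fact q.Prime]

theorem sd_inv (S : Finset ℕ) : (sd q S)⁻¹ = sd q S := by
  unfold sd
  rw [mul_inv_rev, inv_inv]

private theorem one_mem_sp (S : Finset ℕ) : (1 : (ZMod q)ˣ) ∈ sp q S := by
  unfold sp
  exact mem_image.2 ⟨∅, by simp, by simp⟩

private theorem sp_subset_sd (S : Finset ℕ) : sp q S ⊆ sd q S := by
  intro x hx
  unfold sd
  rw [mem_mul]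
  exact ⟨x, hx, 1, by rw [mem_inv]; exact ⟨1, one_mem_sp S, inv_one⟩, mul_one x⟩

theorem one_mem_sd (S : Finset ℕ) : (1 : (ZMod q)ˣ) ∈ sd q S :=
  sp_subset_sd S (one_mem_sp S)

theorem un_mem_sd {S : Finset ℕ} {p : ℕ} (hp : p ∈ S) : un q p ∈ sd q S := by
  apply sp_subset_sd
  unfold sp
  exact mem_image.2 ⟨{p}, by simpa using hp, by simp⟩

theorem un_coe {p : ℕ} (hp : (p : ZMod q) ≠ 0) : ((un q p : (ZMod q)ˣ) : ZMod q) = p := by
  unfold un
  rw [dif_pos hp]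
  rfl

private theorem coe_prod_un {I : Finset ℕ} (hI : ∀ p ∈ I, (p : ZMod q) ≠ 0) :
    ((∏ p ∈ I, un q p : (ZMod q)ˣ) : ZMod q) = ((∏ p ∈ I, p : ℕ) : ZMod q) := by
  rw [Units.coe_prod, Nat.cast_prod]
  exact prod_congr rfl (fun p hp => un_coe (hI p hp))

/-- The map `(ZMod q)ˣ → ZMod q` is injective, and `sp q S ⊆ sd q S`. -/
theorem cnt_le {S : Finset ℕ} (hS : ∀ p ∈ S, (p : ZMod q) ≠ 0) : cnt q S ≤ #(sd q S) := by
  refine le_trans ?_ (card_le_card (sp_subset_sd S))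
  have : S.powerset.image (fun I => ((∏ p ∈ I, p : ℕ) : ZMod q)) =
      (sp q S).image (fun x : (ZMod q)ˣ => (x : ZMod q)) := by
    unfold sp
    rw [image_image]
    apply image_congr
    intro I hI
    have hI' : I ⊆ S := mem_powerset.1 hI
    simp only [Function.comp]
    exact (coe_prod_un (fun p hp => hS p (hI' hp))).symm
  unfold cnt
  rw [this]
  exact card_image_le

/-- Elements of products of the sets `sd q (S i)` are quotients `f / g` with `f g` dividing the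
product of all the elements of the `S i`. For one set `S`: `∏ I / ∏ I' = ∏ (I \ I') / ∏ (I' \ I)`. -/
theorem exists_of_mem_prod (S : ℕ → Finset ℕ) (J : ℕ)
    (hS : ∀ i < J, ∀ p ∈ S i, (p : ZMod q) ≠ 0) :
    ∀ x ∈ ∏ i ∈ range J, sd q (S i), ∃ f g : ℕ, f * g ∣ ∏ i ∈ range J, ∏ p ∈ S i, p ∧
      (g : ZMod q) ≠ 0 ∧ (x : ZMod q) * g = f := by
  induction J with
  | zero =>
    intro x hx
    rw [prod_range_zero, mem_one] at hx
    subst hx
    exact ⟨1, 1, by simp, by simp, by simp⟩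
  | succ J ih =>
    intro x hx
    rw [prod_range_succ, mem_mul] at hx
    obtain ⟨y, hy, z, hz, rfl⟩ := hx
    obtain ⟨f, g, hfg, hg, hyf⟩ := ih (fun i hi => hS i (by omega)) y hy
    unfold sd at hz
    rw [mem_mul] at hz
    obtain ⟨u, hu, w, hw, rfl⟩ := hz
    rw [mem_inv] at hw
    obtain ⟨w, hw, rfl⟩ := hw
    unfold sp at hu hw
    obtain ⟨I, hI, rfl⟩ := mem_image.1 hu
    obtain ⟨K, hK, rfl⟩ := mem_image.1 hw
    have hI' : I ⊆ S J := mem_powerset.1 hI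
    have hK' : K ⊆ S J := mem_powerset.1 hK
    have hSJ := hS J (Nat.lt_succ_self J)
    have hdiv : (∏ p ∈ I, un q p) * (∏ p ∈ K, un q p)⁻¹ =
        (∏ p ∈ I \ K, un q p) * (∏ p ∈ K \ I, un q p)⁻¹ := by
      have h1 : (∏ p ∈ I, un q p) = (∏ p ∈ I \ K, un q p) * ∏ p ∈ I ∩ K, un q p := by
        rw [mul_comm]
        exact (prod_inter_mul_prod_sdiff I K _).symm
      have h2 : (∏ p ∈ K, un q p) = (∏ p ∈ K \ I, un q p) * ∏ p ∈ I ∩ K, un q p := by
        rw [mul_comm, inter_comm]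
        exact (prod_inter_mul_prod_sdiff K I _).symm
      rw [h1, h2]
      group
    have hne : ∀ T ⊆ S J, ((∏ p ∈ T, p : ℕ) : ZMod q) ≠ 0 := by
      intro T hT
      rw [Nat.cast_prod]
      exact prod_ne_zero_iff.2 (fun p hp => hSJ p (hT hp))
    have hcI := coe_prod_un (q := q) (I := I \ K) (fun p hp => hSJ p (hI' (mem_sdiff.1 hp).1))
    have hcK := coe_prod_un (q := q) (I := K \ I) (fun p hp => hSJ p (hK' (mem_sdiff.1 hp).1))
    refine ⟨f * ∏ p ∈ I \ K, p, g * ∏ p ∈ K \ I, p, ?_, ?_, ?_⟩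
    · rw [prod_range_succ]
      have : f * (∏ p ∈ I \ K, p) * (g * ∏ p ∈ K \ I, p) =
          (f * g) * ((∏ p ∈ I \ K, p) * ∏ p ∈ K \ I, p) := by ring
      rw [this]
      apply mul_dvd_mul hfg
      rw [← prod_union (disjoint_sdiff_sdiff)]
      exact prod_dvd_prod_of_subset _ _ _ (union_subset (sdiff_subset.trans hI')
        (sdiff_subset.trans hK'))
    · rw [Nat.cast_mul]
      exact mul_ne_zero hg (hne _ (sdiff_subset.trans hK'))
    · rw [hdiv, Nat.cast_mul, Nat.cast_mul, ← hyf, ← hcI, ← hcK]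
      rw [Units.val_mul, Units.val_mul]
      have : (((∏ p ∈ K \ I, un q p)⁻¹ : (ZMod q)ˣ) : ZMod q) *
          ((∏ p ∈ K \ I, un q p : (ZMod q)ˣ) : ZMod q) = 1 := by
        rw [← Units.val_mul, inv_mul_cancel, Units.val_one]
      linear_combination ((y : ZMod q) * ((∏ p ∈ I \ K, un q p : (ZMod q)ˣ) : ZMod q) * g) * this

/-- If `-1` is a signed product of the prime factors then `a / b` is a sum of three unit
fractions: `-1 = f / g`, so `q ∣ f + g`, and `rep_of_dvd`. -/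
theorem rep_of_neg_one {a b : ℕ} (hb : 0 < b) (ha : a ∣ q + 1) (S : ℕ → Finset ℕ) (J : ℕ)
    (hS : ∀ i < J, ∀ p ∈ S i, (p : ZMod q) ≠ 0)
    (hSb : ∏ i ∈ range J, ∏ p ∈ S i, p ∣ b)
    (h : (-1 : (ZMod q)ˣ) ∈ ∏ i ∈ range J, sd q (S i)) : Rep3 a b := by
  obtain ⟨f, g, hfg, hg, he⟩ := exists_of_mem_prod S J hS _ h
  refine rep_of_dvd hb (hfg.trans hSb) ?_ ha
  rw [← ZMod.natCast_eq_zero_iff, Nat.cast_add, ← he]
  simp

end Helper66.MF
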