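import Pool.Agent.Helper66.MF.Iso

namespace Helper66.MF

open Finset
open scoped Pointwise

variable {G : Type} [CommGroup G] [Fintype G] [DecidableEq G]

/-- If `|P D| < |P| + |D| / 16` then `P D` is stable under the subgroup `H` generated by `D`.

Proof. Let `x = p d ∈ P D`, `p ∈ P`, and suppose some `x h ∉ P D`, `h ∈ H`. Let
`X = {y ∈ H : p y ∈ P}` (nonempty, it contains `1`). Then `p (X D) ⊆ P D` and the part of `P D`
in the coset `p H` is `p (X D)`; as `P ⊆ P D`, `|X D| - |X| ≤ |P D| - |P| < |D| / 16`. If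
`2 |X| ≤ |H|` this contradicts `iso`. If `2 |X| > |H|`, let `Y = H \ (X D)`, nonempty because of
`x h`, with `2 |Y| < |H|`, and `Y D` is disjoint from `X` (`y d = z ∈ X` gives
`y = z d⁻¹ ∈ X D`), so `|Y D| ≤ |H| - |X|` and `iso` for `Y` gives
`|H| - |X D| + |D| / 16 ≤ |H| - |X|`, again a contradiction. -/
theorem small_step {D P : Finset G} (hD : D⁻¹ = D) (h1 : (1 : G) ∈ D)
    (h : 16 * #(P * D) < 16 * #P + #D) :
    ∀ x ∈ P * D, ∀ y ∈ Subgroup.closure (D : Set G), x * y ∈ P * D := by
  classical
  intro x hx y0 hy0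
  by_contra hcon
  obtain ⟨p, hp, d, hd, rfl⟩ := mem_mul.1 hx
  set H : Subgroup G := Subgroup.closure (D : Set G) with hH
  have hDH : ∀ g ∈ D, g ∈ H := fun g hg => Subgroup.subset_closure (by exact_mod_cast hg)
  set Hf : Finset G := univ.filter (fun g => g ∈ H) with hHf
  have hcardH : Nat.card H = #Hf := by
    rw [Nat.card_eq_fintype_card, Fintype.card_subtype]
  set X : Finset G := Hf.filter (fun y => p * y ∈ P) with hX
  have memX : ∀ z, z ∈ X ↔ z ∈ H ∧ p * z ∈ P := by
    intro z
    simp [hX, hHf]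
  have hXne : X.Nonempty := ⟨1, (memX 1).2 ⟨H.one_mem, by simpa using hp⟩⟩
  have hXD : X ⊆ X * D := fun z hz => by simpa using mul_mem_mul hz h1
  have hPD : P ⊆ P * D := fun z hz => by simpa using mul_mem_mul hz h1
  have hXDH : X * D ⊆ Hf := by
    intro z hz
    obtain ⟨a, ha, b, hb, rfl⟩ := mem_mul.1 hz
    simp only [hHf, mem_filter, mem_univ, true_and]
    exact H.mul_mem ((memX a).1 ha).1 (hDH b hb)
  have hXH : X ⊆ Hf := hXD.trans hXDH
  have hmove : ∀ z ∈ X * D, p * z ∈ P * D := by
    intro z hz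
    obtain ⟨a, ha, b, hb, rfl⟩ := mem_mul.1 hz
    rw [← mul_assoc]
    exact mul_mem_mul ((memX a).1 ha).2 hb
  have hdiff : #((X * D) \ X) ≤ #((P * D) \ P) := by
    apply card_le_card_of_injOn (fun z => p * z)
    · intro z hz
      simp only [coe_sdiff, Set.mem_diff, mem_coe] at hz ⊢
      refine ⟨hmove z hz.1, fun hzP => hz.2 ((memX z).2 ⟨?_, hzP⟩)⟩
      have := hXDH hz.1
      simpa [hHf] using this
    · intro z _ w _ hzw
      exact mul_left_cancel hzw
  rw [card_sdiff_of_subset hXD, card_sdiff_of_subset hPD] at hdiff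
  have hc1 := card_le_card hXD
  have hc2 := card_le_card hPD
  have hc3 := card_le_card hXDH
  have hXHc : ∀ z ∈ X, z ∈ Subgroup.closure (D : Set G) := fun z hz => ((memX z).1 hz).1
  by_cases hsmall : 2 * #X ≤ #Hf
  · have hiso := iso hD h1 hXne hXHc (by rw [hcardH]; exact hsmall)
    omega
  · set Y : Finset G := Hf \ (X * D) with hY
    have hYne : Y.Nonempty := by
      refine ⟨d * y0, ?_⟩
      rw [hY, mem_sdiff]
      constructor
      · simp only [hHf, mem_filter, mem_univ, true_and]
        exact H.mul_mem (hDH d hd) hy0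
      · intro hin
        apply hcon
        rw [mul_assoc]
        exact hmove _ hin
    have hYcard : #Y = #Hf - #(X * D) := card_sdiff_of_subset hXDH
    have hYH : ∀ z ∈ Y, z ∈ Subgroup.closure (D : Set G) := by
      intro z hz
      have := (mem_sdiff.1 hz).1
      simpa [hHf] using this
    have hiso := iso hD h1 hYne hYH (by rw [hcardH]; omega)
    have hYD : Y * D ⊆ Hf \ X := by
      intro z hz
      obtain ⟨a, ha, b, hb, rfl⟩ := mem_mul.1 hz
      rw [mem_sdiff]
      constructor
      · simp only [hHf, mem_filter, mem_univ, true_and]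
        exact H.mul_mem (hYH a ha) (hDH b hb)
      · intro hin
        have hb' : b⁻¹ ∈ D := by
          rw [← hD]
          exact inv_mem_inv hb
        have : a ∈ X * D := by
          have h2 := mul_mem_mul hin hb'
          simpa using h2
        exact (mem_sdiff.1 ha).2 this
    have hc4 := card_le_card hYD
    rw [card_sdiff_of_subset hXH] at hc4
    have hc5 := card_le_card hXH
    omega

end Helper66.MF
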